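import Mathlib
import Pool.Agent.P.MP_ba7db8_lc.Defs

namespace Pool.Agent.P.MP_bd026d_co

open Pool.Agent.P.MP_ba7db8_lc

/-- `x` and `y` are joined by a walk of `G` all of whose edges lie in `F`. -/
def Conn (G : Graph ℕ ℕ) (F : Set ℕ) : ℕ → ℕ → Prop :=
  Relation.ReflTransGen fun x y => ∃ e ∈ F, G.IsLink e x y

/-- `M` is the cycle matroid of `G`: the independent sets are the edge sets of forests,
i.e. the sets `I` of edges in which no edge has its ends joined by a walk in the rest of `I`. -/
def IsCycleMatroid (G : Graph ℕ ℕ) (M : Matroid ℕ) : Prop :=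
  M.E = G.edgeSet ∧ ∀ I ⊆ G.edgeSet,
    (M.Indep I ↔ ∀ e ∈ I, ∀ x y, G.IsLink e x y → ¬ Conn G (I \ {e}) x y)

/-- `H` is obtained from `G` by contracting the edges in `C` (the map `κ` names the components
of `C`), deleting the edges in `D` and deleting isolated vertices. Edges keep their labels. -/
def IsGraphMinor (H G : Graph ℕ ℕ) : Prop :=
  ∃ (C D : Set ℕ) (κ : ℕ → ℕ),
    (∀ x ∈ G.vertexSet, ∀ y ∈ G.vertexSet, κ x = κ y ↔ Conn G C x y) ∧
    H ≤ (G.map κ).deleteEdges (C ∪ D) ∧ H.edgeSet = G.edgeSet \ (C ∪ D)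

/-- `M 0, …, M (n-1)` is a temporal sequence of matroids. -/
def Temporal (n : ℕ) (M : ℕ → Matroid ℕ) : Prop :=
  ∀ i, i + 1 < n → (M i).IsMinor (M (i + 1)) ∨ (M (i + 1)).IsMinor (M i)

/-- The sequence `M 0, …, M (n-1)` is simultaneously graphic. -/
def SimGraphic (n : ℕ) (M : ℕ → Matroid ℕ) : Prop :=
  ∃ G : ℕ → Graph ℕ ℕ, (∀ i < n, (G i).vertexSet.Finite ∧ IsCycleMatroid (G i) (M i)) ∧
    ∀ i, i + 1 < n → ((M i).IsMinor (M (i + 1)) → IsGraphMinor (G i) (G (i + 1))) ∧
      ((M (i + 1)).IsMinor (M i) → IsGraphMinor (G (i + 1)) (G i))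

/-- The set of positions of a bit string that hold `true`. -/
def ones (s : List Bool) : Set ℕ := {j | s.getD j false = true}

/-- Column `j` of the 0-1 matrix whose list of columns is `A`, as a vector over `GF(2)`. -/
def col (A : List (List Bool)) (j : ℕ) : ℕ → ZMod 2 :=
  fun r => if (A.getD j []).getD r false then 1 else 0

/-- For `i < E.length`, `M i` is the binary matroid on the ground set `ones E[i]` represented over
`GF(2)` by the corresponding columns of `A`. -/
def Represents (E A : List (List Bool)) (M : ℕ → Matroid ℕ) : Prop :=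
  ∀ i < E.length, (M i).E = ones (E.getD i []) ∧
    ∀ I, (M i).Indep I ↔ I ⊆ ones (E.getD i []) ∧ LinearIndepOn (ZMod 2) (col A) I

/-- Self-delimiting code of a pair of lists of bit strings. -/
def code (E A : List (List Bool)) : List Bool :=
  pair (E.flatMap fun s => pair s []) (A.flatMap fun s => pair s [])

open Classical in
/-- The independence oracle of `M 0, …, M (n-1)`: the query `1^i 0 s` asks whether `ones s` is
independent in `M i`. -/
noncomputable def oracle (n : ℕ) (M : ℕ → Matroid ℕ) (q : List Bool) : Bool :=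
  decide (q.idxOf false < n ∧ (M (q.idxOf false)).Indep (ones (q.drop (q.idxOf false + 1))))

/-- The answers collected in `t` rounds on input `y`: each query is computed by `Q` from the input
and the earlier answers, and is answered by `O`. -/
def answers (Q : List Bool → List Bool) (O : List Bool → Bool) (y : List Bool) (t : ℕ) :
    List Bool :=
  (fun h => h ++ [O (Q (pair y h))])^[t] []

end Pool.Agent.P.MP_bd026d_co
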