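import Mathlib
import Pool.Agent.P.MP_bd026d_co.Defs

/-!
Graphs with labelled edges versus placements of the ends of the edges.
-/

namespace Pool.Agent.P.MP_bd026d_co

open Finsupp

/-- a placement of the two ends of each edge -/
abbrev Pl := ℕ → Bool → ℕ

/-- vectors over GF(2) -/
abbrev Vec := ℕ →₀ ZMod 2

/-- unit vector -/
noncomputable abbrev sv (x : ℕ) : Vec := single x 1

/-- incidence vector of an edge -/
noncomputable def chi (o : Pl) (e : ℕ) : Vec := sv (o e false) + sv (o e true)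

/-- `o` describes the graph `G` -/
def Valid (G : Graph ℕ ℕ) (o : Pl) : Prop := ∀ e ∈ G.edgeSet, G.IsLink e (o e false) (o e true)

theorem z2 (a : ZMod 2) : a = 0 ∨ a = 1 := by revert a; decide

theorem vadd_self (x : Vec) : x + x = 0 := ZModModule.add_self x

theorem Valid.chi_eq {G : Graph ℕ ℕ} {o : Pl} (h : Valid G o) {e x y : ℕ} (hl : G.IsLink e x y) :
    chi o e = sv x + sv y := by
  rcases (h e hl.edge_mem).eq_and_eq_or_eq_and_eq hl with ⟨rfl, rfl⟩ | ⟨rfl, rfl⟩
  · rfl
  · exact add_comm _ _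

theorem exists_valid (G : Graph ℕ ℕ) : ∃ o, Valid G o := by
  have : ∀ e, ∃ x y, e ∈ G.edgeSet → G.IsLink e x y := fun e => by
    by_cases he : e ∈ G.edgeSet
    · obtain ⟨x, y, h⟩ := G.exists_isLink_of_mem_edgeSet he
      exact ⟨x, y, fun _ => h⟩
    · exact ⟨0, 0, fun h => absurd h he⟩
  choose x y h using this
  exact ⟨fun e b => bif b then y e else x e, h⟩

theorem acyclic_iff {G : Graph ℕ ℕ} {o : Pl} (h : Valid G o) {I : Set ℕ} (hI : I ⊆ G.edgeSet) :
    (∀ e ∈ I, ∀ x y, G.IsLink e x y → ¬ Conn G (I \ {e}) x y) ↔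
      LinearIndepOn (ZMod 2) (chi o) I := by
  classical
  constructor
  · intro H
    rw [linearIndepOn_iff]
    intro c hc h0
    by_contra hne
    obtain ⟨e, he⟩ := Finsupp.support_nonempty_iff.2 hne
    have heI : e ∈ I := hc he
    have hl := h e (hI heI)
    have hn := H e heI _ _ hl
    let lam : Vec →ₗ[ZMod 2] ZMod 2 := linearCombination (ZMod 2)
      fun w => if Conn G (I \ {e}) (o e false) w then (1 : ZMod 2) else 0
    have h1 : lam (chi o e) = 1 := by
      have : Conn G (I \ {e}) (o e false) (o e false) := Relation.ReflTransGen.refl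
      simp [lam, chi, this, hn]
    have h2 : ∀ e' ∈ I, e' ≠ e → lam (chi o e') = 0 := by
      intro e' he' hne'
      have hl' := h e' (hI he')
      have : Conn G (I \ {e}) (o e false) (o e' false) ↔
          Conn G (I \ {e}) (o e false) (o e' true) :=
        ⟨fun hh => hh.tail ⟨e', ⟨he', hne'⟩, hl'⟩, fun hh => hh.tail ⟨e', ⟨he', hne'⟩, hl'.symm⟩⟩
      simp only [lam, chi, map_add, linearCombination_single, one_smul, this]
      exact CharTwo.add_self_eq_zero _
    rw [linearCombination_apply, Finsupp.sum] at h0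
    have h3 := congrArg lam h0
    rw [map_sum, map_zero, Finset.sum_eq_single_of_mem e he] at h3
    · rw [map_smul, h1, smul_eq_mul, mul_one] at h3
      exact (Finsupp.mem_support_iff.1 he) h3
    · intro e' he' hne'
      rw [map_smul, h2 e' (hc he') hne', smul_zero]
  · intro H e he x y hl hc
    apply H.notMem_span he
    rw [h.chi_eq hl]
    clear hl
    induction hc with
    | refl => rw [vadd_self]; exact zero_mem _
    | @tail y z _ hyz ih =>
      obtain ⟨e', he', hl'⟩ := hyz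
      have : sv x + sv z = (sv x + sv y) + chi o e' := by
        rw [h.chi_eq hl', add_assoc, ← add_assoc (sv y), vadd_self, zero_add]
      rw [this]
      exact add_mem ih (Submodule.subset_span ⟨e', he', rfl⟩)

theorem eq_of_support_eq {c d : Vec} (h : c.support = d.support) : c = d := by
  ext i
  have : c i ≠ 0 ↔ d i ≠ 0 := by rw [← mem_support_iff, ← mem_support_iff, h]
  rcases z2 (c i) with h1 | h1 <;> rcases z2 (d i) with h2 | h2 <;> simp_all

theorem same_kernel {V W : Type} [AddCommGroup V] [Module (ZMod 2) V] [AddCommGroup W]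
    [Module (ZMod 2) W] {v : ℕ → V} {w : ℕ → W} {E : Set ℕ}
    (h : ∀ I ⊆ E, LinearIndepOn (ZMod 2) v I ↔ LinearIndepOn (ZMod 2) w I) (c : Vec)
    (hc : (c.support : Set ℕ) ⊆ E) :
    linearCombination (ZMod 2) v c = 0 ↔ linearCombination (ZMod 2) w c = 0 := by
  classical
  induction hn : c.support.card using Nat.strong_induction_on generalizing c with
  | _ n ih =>
  have key : ∀ d : Vec, d ≠ 0 → d.support ⊆ c.support → d = c ∨
      ((linearCombination (ZMod 2) v d = 0 ↔ linearCombination (ZMod 2) w d = 0) ∧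
        (linearCombination (ZMod 2) v (c + d) = 0 ↔ linearCombination (ZMod 2) w (c + d) = 0)) := by
    intro d hd0 hd
    by_cases he : d.support = c.support
    · exact Or.inl (eq_of_support_eq he)
    right
    have hsub : (c + d).support ⊆ c.support := fun i hi => by
      rcases Finset.mem_union.1 (support_add hi) with h | h
      exacts [h, hd h]
    refine ⟨ih _ (hn ▸ Finset.card_lt_card (Finset.ssubset_iff_subset_ne.2 ⟨hd, he⟩)) d
      ((Finset.coe_subset.2 hd).trans hc) rfl, ih _ (hn ▸ Finset.card_lt_card ?_) _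
      ((Finset.coe_subset.2 hsub).trans hc) rfl⟩
    obtain ⟨i, hi⟩ := Finsupp.support_nonempty_iff.2 hd0
    refine (Finset.ssubset_iff_of_subset hsub).2 ⟨i, hd hi, ?_⟩
    have h1 := mem_support_iff.1 hi
    have h2 := mem_support_iff.1 (hd hi)
    rw [notMem_support_iff, Finsupp.add_apply]
    rcases z2 (c i) with h3 | h3 <;> rcases z2 (d i) with h4 | h4 <;> simp_all
    rfl
  by_cases hc0 : c = 0
  · simp [hc0]
  have hh := h _ hc
  rw [linearIndepOn_iff, linearIndepOn_iff] at hh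
  constructor
  · intro h0
    have : ¬ ∀ l ∈ supported (ZMod 2) (ZMod 2) (c.support : Set ℕ),
        linearCombination (ZMod 2) w l = 0 → l = 0 := fun hw =>
      hc0 (hh.2 hw c (by simp [mem_supported]) h0)
    push Not at this
    obtain ⟨d, hd, hd0, hdne⟩ := this
    rcases key d hdne (Finset.coe_subset.1 hd) with rfl | ⟨h1, h2⟩
    · exact hd0
    · have := h2.1 (by rw [map_add, h0, h1.2 hd0, add_zero])
      rwa [map_add, hd0, add_zero] at this
  · intro h0
    have : ¬ ∀ l ∈ supported (ZMod 2) (ZMod 2) (c.support : Set ℕ),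
        linearCombination (ZMod 2) v l = 0 → l = 0 := fun hw =>
      hc0 (hh.1 hw c (by simp [mem_supported]) h0)
    push Not at this
    obtain ⟨d, hd, hd0, hdne⟩ := this
    rcases key d hdne (Finset.coe_subset.1 hd) with rfl | ⟨h1, h2⟩
    · exact hd0
    · have := h2.2 (by rw [map_add, h0, h1.1 hd0, add_zero])
      rwa [map_add, hd0, add_zero] at this

/-- `o'` on `F` arises from `o` on `F ∪ {g}` by deleting or contracting `g` -/
def Rel (F : Set ℕ) (g : ℕ) (o' o : Pl) : Prop :=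
  ∃ (κ : ℕ → ℕ) (c : Prop), (∀ e ∈ F, ∀ b, o' e b = κ (o e b)) ∧
    ∀ e ∈ insert g F, ∀ b, ∀ e' ∈ insert g F, ∀ b', κ (o e b) = κ (o e' b') ↔
      (o e b = o e' b' ∨ (c ∧ s(o e b, o e' b') = s(o g false, o g true)))

theorem conn_single {G : Graph ℕ ℕ} {o : Pl} (h : Valid G o) {C : Set ℕ} {g : ℕ}
    (hg : g ∈ G.edgeSet) (hC : ∀ e ∈ C, e ∈ G.edgeSet → e = g) {x y : ℕ} :
    Conn G C x y ↔ (x = y ∨ (g ∈ C ∧ s(x, y) = s(o g false, o g true))) := by
  constructor
  · intro hc
    induction hc with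
    | refl => exact Or.inl rfl
    | @tail y z _ hyz ih =>
      obtain ⟨e, he, hl⟩ := hyz
      obtain rfl := hC e he hl.edge_mem
      have h1 := (h e hg).eq_and_eq_or_eq_and_eq hl
      simp only [Sym2.eq_iff, he, true_and] at ih ⊢
      omega
  · rintro (rfl | ⟨hgC, hs⟩)
    · exact Relation.ReflTransGen.refl
    · exact Relation.ReflTransGen.single ⟨g, hgC, ((h g hg).isLink_iff_sym2_eq).2 hs.symm⟩

theorem Valid.mem {G : Graph ℕ ℕ} {o : Pl} (h : Valid G o) {e : ℕ} (he : e ∈ G.edgeSet)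
    (b : Bool) : o e b ∈ G.vertexSet := by
  cases b
  · exact (h e he).left_mem
  · exact (h e he).right_mem

theorem minor_aux {H G : Graph ℕ ℕ} {F : Set ℕ} {g : ℕ} (hm : IsGraphMinor H G)
    (hH : H.edgeSet = F) (hG : G.edgeSet = insert g F) :
    ∃ (κ : ℕ → ℕ), (∀ e ∈ F, ∀ x y, G.IsLink e x y → H.IsLink e (κ x) (κ y)) ∧
      ∀ o o' : Pl, Valid G o → (∀ e ∈ F, ∀ b, o' e b = κ (o e b)) → Rel F g o' o := by
  obtain ⟨C, D, κ, h1, h2, h3⟩ := hm
  refine ⟨κ, fun e he x y hl => ?_, fun o o' ho ho' => ⟨κ, g ∈ C, ho', fun e he b e' he' b' => ?_⟩⟩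
  · have heH : e ∈ H.edgeSet := hH ▸ he
    rw [h2.isLink_iff heH]
    have := h3 ▸ heH
    simp only [Graph.deleteEdges_isLink]
    exact ⟨hl.map κ, this.2⟩
  · rw [h1 _ (ho.mem (hG ▸ he) b) _ (ho.mem (hG ▸ he') b')]
    refine conn_single ho (hG ▸ Set.mem_insert _ _) fun f hf hfG => ?_
    rcases (hG ▸ hfG : f ∈ insert g F) with h | h
    · exact h
    · have : f ∈ G.edgeSet \ (C ∪ D) := h3 ▸ hH ▸ h
      exact absurd (Or.inl hf) this.2

theorem minor_down {H G : Graph ℕ ℕ} {F : Set ℕ} {g : ℕ} (hm : IsGraphMinor H G)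
    (hH : H.edgeSet = F) (hG : G.edgeSet = insert g F) {o : Pl} (ho : Valid G o) :
    ∃ o', Valid H o' ∧ Rel F g o' o := by
  obtain ⟨κ, h1, h2⟩ := minor_aux hm hH hG
  refine ⟨fun e b => κ (o e b), fun e he => h1 e (hH ▸ he) _ _ (ho e ?_), h2 _ _ ho fun _ _ _ => rfl⟩
  rw [hG]
  exact Or.inr (hH ▸ he)

theorem minor_up {H G : Graph ℕ ℕ} {F : Set ℕ} {g : ℕ} (hm : IsGraphMinor H G)
    (hH : H.edgeSet = F) (hG : G.edgeSet = insert g F) {o' : Pl} (ho' : Valid H o') :
    ∃ o, Valid G o ∧ Rel F g o' o := by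
  classical
  obtain ⟨κ, h1, h2⟩ := minor_aux hm hH hG
  obtain ⟨o, ho⟩ := exists_valid G
  let o2 : Pl := fun e b =>
    if o' e false = κ (o e false) ∧ o' e true = κ (o e true) then o e b else o e (!b)
  have hv : Valid G o2 := fun e he => by
    simp only [o2]
    split_ifs
    · exact ho e he
    · exact (ho e he).symm
  refine ⟨o2, hv, h2 _ _ hv fun e he b => ?_⟩
  have h3 := (ho' e (hH ▸ he)).eq_and_eq_or_eq_and_eq (h1 e he _ _ (ho e (hG ▸ Or.inr he)))
  simp only [o2]
  split_ifs with h4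
  · cases b
    exacts [h4.1, h4.2]
  · have h5 := h3.resolve_left h4
    cases b
    exacts [h5.1, h5.2]

/-- the graph described by a placement -/
def graphOf (E : Set ℕ) (o : Pl) : Graph ℕ ℕ where
  vertexSet := {x | ∃ e ∈ E, ∃ b, o e b = x}
  IsLink e x y := e ∈ E ∧ s(x, y) = s(o e false, o e true)
  edgeSet := E
  isLink_symm := fun e _ => ⟨fun x y h => ⟨h.1, Sym2.eq_swap.trans h.2⟩⟩
  eq_or_eq_of_isLink_of_isLink := fun e x y v w h h' => by
    have := h.2.trans h'.2.symm
    rw [Sym2.eq_iff] at this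
    omega
  edge_mem_iff_exists_isLink := fun e => ⟨fun h => ⟨_, _, h, rfl⟩, fun ⟨_, _, h⟩ => h.1⟩
  left_mem_of_isLink := fun e x y h => by
    rcases Sym2.eq_iff.1 h.2 with h' | h'
    · exact ⟨e, h.1, false, h'.1.symm⟩
    · exact ⟨e, h.1, true, h'.1.symm⟩

theorem valid_graphOf (E : Set ℕ) (o : Pl) : Valid (graphOf E o) o := fun _ he => ⟨he, rfl⟩

theorem finite_graphOf {E : Set ℕ} (hE : E.Finite) (o : Pl) : (graphOf E o).vertexSet.Finite :=
  ((hE.prod (Set.toFinite (Set.univ : Set Bool))).image fun p => o p.1 p.2).subset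
    fun _ ⟨e, he, b, h⟩ => ⟨(e, b), ⟨he, trivial⟩, h⟩

theorem minor_of_rel {F : Set ℕ} {g : ℕ} (hg : g ∉ F) {o' o : Pl} (h : Rel F g o' o) :
    IsGraphMinor (graphOf F o') (graphOf (insert g F) o) := by
  obtain ⟨κ, c, h1, h2⟩ := h
  have hU : ({e | e = g ∧ c} ∪ {g} : Set ℕ) = {g} := by
    ext e
    simp only [Set.mem_union, Set.mem_ofPred_eq, Set.mem_singleton_iff]
    tauto
  refine ⟨{e | e = g ∧ c}, {g}, κ, ?_, ?_, ?_⟩
  · rintro x ⟨e, he, b, rfl⟩ y ⟨e', he', b', rfl⟩
    rw [h2 e he b e' he' b', conn_single (valid_graphOf _ o) (g := g) (Set.mem_insert _ _)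
      fun _ h _ => h.1]
    simp
  · rw [hU]
    refine ⟨?_, ?_⟩
    · rintro x ⟨e, he, b, rfl⟩
      exact ⟨o e b, ⟨e, Or.inr he, b, rfl⟩, (h1 e he b).symm⟩
    · rintro e x y ⟨he, hs⟩
      simp only [Graph.deleteEdges_isLink]
      refine ⟨?_, fun h => hg (h ▸ he)⟩
      have := (valid_graphOf (insert g F) o e (Or.inr he)).map κ
      rw [← h1 e he, ← h1 e he] at this
      exact this.isLink_iff_sym2_eq.2 hs.symm
  · rw [hU]
    change F = insert g F \ {g}
    rw [Set.insert_sdiff_self_of_notMem hg]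

theorem exists_matroid {V : Type} [AddCommGroup V] [Module (ZMod 2) V] (v : ℕ → V) {E : Set ℕ}
    (hE : E.Finite) : ∃ M : Matroid ℕ, M.E = E ∧
      ∀ I, M.Indep I ↔ I ⊆ E ∧ LinearIndepOn (ZMod 2) v I := by
  refine ⟨(IndepMatroid.ofFinite hE (fun I => I ⊆ E ∧ LinearIndepOn (ZMod 2) v I)
    ⟨by simp, by simp⟩ (fun I J hJ hIJ => ⟨hIJ.trans hJ.1, hJ.2.mono hIJ⟩) ?_
    fun I hI => hI.1).matroid, rfl, fun I => Iff.rfl⟩
  intro I J hI hJ hlt
  by_contra hcon
  push Not at hcon
  have hIf := (hE.subset hI.1).fintype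
  have hJf := (hE.subset hJ.1).fintype
  have hsp : Set.range (fun x : J => v x) ≤ Submodule.span (ZMod 2) (v '' I) := by
    rintro _ ⟨⟨e, he⟩, rfl⟩
    by_cases heI : e ∈ I
    · exact Submodule.subset_span ⟨e, heI, rfl⟩
    · by_contra hn
      exact hcon e he heI (Set.insert_subset (hJ.1 he) hI.1) (hI.2.insert hn)
  have hf := ((hE.subset hI.1).image v).fintype
  have h1 := linearIndependent_le_span' _ hJ.2 (v '' I) hsp
  have h2 : Fintype.card (v '' I) ≤ I.ncard := by
    rw [← Nat.card_eq_fintype_card, Nat.card_coe_set_eq]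
    exact Set.ncard_image_le (hE.subset hI.1)
  have h3 : Fintype.card J = J.ncard := by
    rw [← Nat.card_eq_fintype_card, Nat.card_coe_set_eq]
  rw [Cardinal.mk_fintype, Nat.cast_le] at h1
  omega

end Pool.Agent.P.MP_bd026d_co
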