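import Mathlib
import Pool.Agent.P.MP_bd026d_co.Graphs

/-!
The gadget: labels `9v + j`; `j = 0,1,2,4` is a 4-circuit, `j = 3` a marker (coloop),
`j = 5,…,8` are test elements, and `9n` is a coloop.
-/

namespace Pool.Agent.P.MP_bd026d_co

open Finsupp

/-- the vector of label `9v + j` -/
noncomputable def av (v : ℕ) : ℕ → Vec
  | 4 => sv (9 * v) + sv (9 * v + 1) + sv (9 * v + 2)
  | 5 => sv (9 * v) + sv (9 * v + 1)
  | 6 => sv (9 * v + 3) + sv (9 * v + 1)
  | 7 => sv (9 * v + 3) + sv (9 * v + 2)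
  | 8 => sv (9 * v + 3) + (sv (9 * v) + sv (9 * v + 1) + sv (9 * v + 2))
  | j => sv (9 * v + j)

/-- the vector of a label -/
noncomputable def a (e : ℕ) : Vec := av (e / 9) (e % 9)

theorem a_lab (v j : ℕ) (hj : j < 9) : a (9 * v + j) = av v j := by
  unfold a
  congr 1 <;> omega

theorem exists_lab (e : ℕ) : ∃ v j, j < 9 ∧ e = 9 * v + j := ⟨e / 9, e % 9, by omega, by omega⟩

theorem a_bas {e : ℕ} (he : e % 9 < 4) : a e = sv e := by
  obtain ⟨v, j, hj, rfl⟩ := exists_lab e
  rw [a_lab v j hj]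
  have : j < 4 := by omega
  interval_cases j <;> rfl

theorem a_ne {e i : ℕ} (h : a e i ≠ 0) : i / 9 = e / 9 ∧ i % 9 < 4 ∧ (e % 9 < 4 → i = e) ∧
    (e % 9 = 4 → i % 9 < 3) := by
  obtain ⟨v, j, hj, rfl⟩ := exists_lab e
  rw [a_lab v j hj] at h
  by_contra hc
  apply h
  interval_cases j <;> simp only [av, Finsupp.add_apply, single_apply] <;>
    split_ifs <;> first | rfl | omega

theorem a_ne_zero (e : ℕ) : a e ≠ 0 := by
  obtain ⟨v, j, hj, rfl⟩ := exists_lab e
  rw [a_lab v j hj]
  intro h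
  have h1 := DFunLike.congr_fun h (9 * v + 1)
  have h2 := DFunLike.congr_fun h (9 * v + 2)
  have h3 := DFunLike.congr_fun h (9 * v + j)
  interval_cases j <;> simp [av] at h1 h2 h3

/-- the linear map given by the incidence vectors -/
noncomputable def X (o : Pl) : Vec →ₗ[ZMod 2] Vec := linearCombination (ZMod 2) (chi o)

@[simp] theorem X_sv (o : Pl) (e : ℕ) : X o (sv e) = chi o e := by simp [X]

/-- the placement realises the binary matroid on `E` -/
structure Good (E : Set ℕ) (o : Pl) : Prop where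
  inj : ∀ c : Vec, (∀ i, c i ≠ 0 → i ∈ E ∧ i % 9 < 4) → X o c = 0 → c = 0
  exp : ∀ e ∈ E, chi o e = X o (a e)

/-- the set `E` contains the supports of its vectors -/
def Closed (E : Set ℕ) : Prop := ∀ e ∈ E, ∀ i, a e i ≠ 0 → i ∈ E

theorem lc_congr {V : Type} [AddCommGroup V] [Module (ZMod 2) V] {v w : ℕ → V} {c : Vec}
    (h : ∀ i, c i ≠ 0 → v i = w i) :
    linearCombination (ZMod 2) v c = linearCombination (ZMod 2) w c := by
  rw [linearCombination_apply, linearCombination_apply]
  exact Finsupp.sum_congr fun i hi => by rw [h i (mem_support_iff.1 hi)]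

theorem lc_a_bas {c : Vec} (h : ∀ i, c i ≠ 0 → i % 9 < 4) :
    linearCombination (ZMod 2) a c = c := by
  rw [lc_congr (w := fun i => sv i) fun i hi => a_bas (h i hi)]
  simp [linearCombination_apply]

theorem lc_a_ne {c : Vec} {i : ℕ} (h : linearCombination (ZMod 2) a c i ≠ 0) :
    ∃ e, c e ≠ 0 ∧ a e i ≠ 0 := by
  rw [linearCombination_apply, Finsupp.sum, Finsupp.finsetSum_apply] at h
  obtain ⟨e, he, hne⟩ := Finset.exists_ne_zero_of_sum_ne_zero h
  exact ⟨e, mem_support_iff.1 he, fun h0 => hne (by simp [h0])⟩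

theorem good_iff {E : Set ℕ} (hE : Closed E) (o : Pl) : Good E o ↔
    ∀ I ⊆ E, (LinearIndepOn (ZMod 2) (chi o) I ↔ LinearIndepOn (ZMod 2) a I) := by
  constructor
  · intro h I hI
    rw [linearIndepOn_iff, linearIndepOn_iff]
    refine forall₂_congr fun c hc => imp_congr_left ?_
    have h1 : linearCombination (ZMod 2) (chi o) c = X o (linearCombination (ZMod 2) a c) := by
      rw [apply_linearCombination]
      exact lc_congr fun i hi => h.exp i (hI (hc (mem_support_iff.2 hi)))
    rw [h1]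
    refine ⟨h.inj _ fun i hi => ?_, fun h0 => by rw [h0, map_zero]⟩
    obtain ⟨e, he, hei⟩ := lc_a_ne hi
    exact ⟨hE e (hI (hc (mem_support_iff.2 he))) i hei, (a_ne hei).2.1⟩
  · intro h
    refine ⟨fun c hc h0 => ?_, fun e he => ?_⟩
    · have := (same_kernel h c fun i hi => (hc i (mem_support_iff.1 hi)).1).1 h0
      rwa [lc_a_bas fun i hi => (hc i hi).2] at this
    · have := (same_kernel h (sv e + a e) fun i hi => by
        rcases Finset.mem_union.1 (support_add hi) with h1 | h1
        · exact (Finset.mem_singleton.1 (support_single_subset h1)) ▸ he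
        · exact hE e he i (mem_support_iff.1 h1)).2 (by
          rw [map_add, lc_a_bas (c := a e) fun i hi => (a_ne hi).2.1]
          simp [vadd_self])
      rw [map_add] at this
      change X o (sv e) + X o (a e) = 0 at this
      rw [X_sv] at this
      rw [← add_zero (chi o e), ← vadd_self (X o (a e)), ← add_assoc, this, zero_add]

variable (n : ℕ)

/-- the persistent labels -/
def F : Set ℕ := {e | e < 9 * n ∧ e % 9 < 5}

/-- test labels -/
def IsTest (e : ℕ) : Prop := e < 9 * n ∧ 5 ≤ e % 9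

/-- labels that may be added and removed -/
def Allowed (e : ℕ) : Prop := e = 9 * n ∨ IsTest n e

theorem closed_F : Closed (F n) := fun e he i hi => by
  have := a_ne hi
  have := he.1
  constructor <;> omega

theorem closed_insert {e : ℕ} (he : Allowed n e) : Closed (insert e (F n)) := fun f hf i hi => by
  have h1 := a_ne hi
  rcases hf with rfl | hf
  · rcases he with rfl | he
    · exact Or.inl (h1.2.2.1 (by omega))
    · have := he.1
      right
      constructor <;> omega
  · exact Or.inr (closed_F n f hf i hi)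

theorem Allowed.not_mem {n e : ℕ} (he : Allowed n e) : e ∉ F n := fun h => by
  have h1 := h.1
  have h2 := h.2
  rcases he with h | ⟨h, h'⟩ <;> omega

/-- add the element `e` and remove it again -/
def Blink (e : ℕ) (o o' : Pl) : Prop :=
  Allowed n e ∧ Good (F n) o ∧ Good (F n) o' ∧
    ∃ o₁, Good (insert e (F n)) o₁ ∧ Rel (F n) e o o₁ ∧ Rel (F n) e o' o₁

/-- a sequence of blinks -/
def Reach : List ℕ → Pl → Pl → Prop
  | [], o, o' => o = o'
  | e :: l, o, o' => ∃ o₁, Blink n e o o₁ ∧ Reach l o₁ o'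

variable {n}

theorem Blink.symm {e : ℕ} {o o' : Pl} (h : Blink n e o o') : Blink n e o' o :=
  let ⟨h1, h2, h3, o₁, h4, h5, h6⟩ := h
  ⟨h1, h3, h2, o₁, h4, h6, h5⟩

theorem reach_append {l l' : List ℕ} {o o' : Pl} :
    Reach n (l ++ l') o o' ↔ ∃ o₁, Reach n l o o₁ ∧ Reach n l' o₁ o' := by
  induction l generalizing o with
  | nil => simp [Reach]
  | cons e l ih =>
    simp only [List.cons_append, Reach, ih]
    constructor
    · rintro ⟨o₁, h1, o₂, h2, h3⟩
      exact ⟨o₂, ⟨o₁, h1, h2⟩, h3⟩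
    · rintro ⟨o₂, ⟨o₁, h1, h2⟩, h3⟩
      exact ⟨o₁, h1, o₂, h2, h3⟩

theorem Reach.good {l : List ℕ} {o o' : Pl} (h : Reach n l o o') (ho : Good (F n) o) :
    Good (F n) o' := by
  induction l generalizing o with
  | nil => exact h ▸ ho
  | cons e l ih =>
    obtain ⟨o₁, h1, h2⟩ := h
    exact ih h2 h1.2.2.1

theorem Reach.reverse {l : List ℕ} {o o' : Pl} (h : Reach n l o o') :
    Reach n l.reverse o' o := by
  induction l generalizing o with
  | nil => exact h.symm
  | cons e l ih =>
    obtain ⟨o₁, h1, h2⟩ := h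
    rw [List.reverse_cons, reach_append]
    exact ⟨o₁, ih h2, o, h1.symm, rfl⟩

theorem reach_iff {l : List ℕ} {o o' : Pl} : Reach n l o o' ↔
    ∃ s : ℕ → Pl, s 0 = o ∧ s l.length = o' ∧
      ∀ t < l.length, Blink n (l.getD t 0) (s t) (s (t + 1)) := by
  induction l generalizing o with
  | nil =>
    exact ⟨fun h => ⟨fun _ => o, rfl, h, by simp⟩, fun ⟨s, h1, h2, _⟩ => h1.symm.trans h2⟩
  | cons e l ih =>
    simp only [Reach, ih]
    constructor
    · rintro ⟨o₁, h1, s, rfl, h3, h4⟩
      refine ⟨fun t => Nat.casesOn t o s, rfl, h3, fun t ht => ?_⟩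
      cases t with
      | zero => exact h1
      | succ t => exact h4 t (by simpa using ht)
    · rintro ⟨s, rfl, h2, h3⟩
      exact ⟨s 1, h3 0 (by simp), fun t => s (t + 1), rfl, h2,
        fun t ht => h3 (t + 1) (by simpa using ht)⟩

end Pool.Agent.P.MP_bd026d_co
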