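import Mathlib
import Pool.Agent.P.MP_bd026d_co.Game

/-!
Soundness of the gadget.
-/

namespace Pool.Agent.P.MP_bd026d_co

open Finsupp Module

variable {n : ℕ}

/-- two edges have a common end -/
def Touch (o : Pl) (e e' : ℕ) : Prop := ∃ b b', o e b = o e' b'

/-- same identifications among the ends of the persistent edges -/
def Same (n : ℕ) (o o' : Pl) : Prop :=
  ∀ e ∈ F n, ∀ b, ∀ e' ∈ F n, ∀ b', o e b = o e' b' ↔ o' e b = o' e' b'

/-- elements of the 4-circuit number `v` -/
def Blk (v e : ℕ) : Prop := e / 9 = v ∧ e % 9 < 5 ∧ e % 9 ≠ 3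

/-- same identifications inside each 4-circuit -/
def Inn (n : ℕ) (o o' : Pl) : Prop :=
  ∀ v < n, ∀ e e', Blk v e → Blk v e' → ∀ b b', o e b = o e' b' ↔ o' e b = o' e' b'

theorem Blk.mem {v e : ℕ} (h : Blk v e) (hv : v < n) : e ∈ F n := by
  obtain ⟨h1, h2, h3⟩ := h
  constructor <;> omega

theorem Same.inn {o o' : Pl} (h : Same n o o') : Inn n o o' :=
  fun _ hv e e' he he' b b' => h e (he.mem hv) b e' (he'.mem hv) b'

theorem Same.touch {o o' : Pl} (h : Same n o o') {e e' : ℕ} (he : e ∈ F n) (he' : e' ∈ F n) :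
    Touch o e e' ↔ Touch o' e e' :=
  exists₂_congr fun b b' => h e he b e' he' b'

theorem Inn.touch {o o' : Pl} (h : Inn n o o') {v e e' : ℕ} (hv : v < n) (he : Blk v e)
    (he' : Blk v e') : Touch o e e' ↔ Touch o' e e' :=
  exists₂_congr fun b b' => h v hv e e' he he' b b'

theorem Good.mono {E E' : Set ℕ} {o : Pl} (h : Good E' o) (hE : E ⊆ E') : Good E o :=
  ⟨fun c hc => h.inj c fun i hi => ⟨hE (hc i hi).1, (hc i hi).2⟩, fun e he => h.exp e (hE he)⟩

theorem Good.chi_ne {E : Set ℕ} {o : Pl} (h : Good E o) (hE : Closed E) {e : ℕ} (he : e ∈ E) :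
    chi o e ≠ 0 := fun h0 =>
  a_ne_zero e (h.inj _ (fun i hi => ⟨hE e he i hi, (a_ne hi).2.1⟩) (h.exp e he ▸ h0))

theorem X_map {o o' : Pl} {κ : ℕ → ℕ} {c : Vec} (h : ∀ i, c i ≠ 0 → ∀ b, o' i b = κ (o i b)) :
    X o' c = mapDomain κ (X o c) := by
  change _ = lmapDomain (ZMod 2) (ZMod 2) κ (linearCombination (ZMod 2) (chi o) c)
  rw [apply_linearCombination]
  exact lc_congr fun i hi => by simp [chi, h i hi, mapDomain_add]

theorem rel_test {e : ℕ} {o o₁ : Pl} (he : IsTest n e) (ho : Good (F n) o)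
    (h₁ : Good (insert e (F n)) o₁) (h : Rel (F n) e o o₁) : Same n o o₁ := by
  obtain ⟨κ, c, h1, h2⟩ := h
  have hs : ∀ i, a e i ≠ 0 → i ∈ F n ∧ i % 9 < 4 := fun i hi => by
    have := a_ne hi
    have := he.1
    refine ⟨⟨?_, ?_⟩, ?_⟩ <;> omega
  have hc : ¬ c := fun hc => by
    have h3 := (h2 e (Or.inl rfl) false e (Or.inl rfl) true).2 (Or.inr ⟨hc, rfl⟩)
    refine a_ne_zero e (ho.inj _ hs ?_)
    rw [X_map fun i hi => h1 i (hs i hi).1, ← h₁.exp e (Or.inl rfl)]
    simp [chi, mapDomain_add, h3, vadd_self]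
  intro f hf b f' hf' b'
  rw [h1 f hf, h1 f' hf', h2 f (Or.inr hf) b f' (Or.inr hf') b']
  simp [hc]

theorem sv_ne {x y : ℕ} (h : sv x + sv y ≠ 0) : x ≠ y := fun hxy => h (hxy ▸ vadd_self _)

theorem sv_eq {x y : ℕ} (h : sv x + sv y = 0) : x = y := by
  by_contra hne
  have := DFunLike.congr_fun h x
  simp [Ne.symm hne] at this

theorem tri {o : Pl} {f e e' : ℕ} (h : chi o f = chi o e + chi o e') (he : chi o e ≠ 0)
    (he' : chi o e' ≠ 0) : Touch o e e' := by
  by_contra hc
  have hc' : ∀ b b', o e b ≠ o e' b' := fun b b' h => hc ⟨b, b', h⟩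
  have h1 := sv_ne he
  have h2 := sv_ne he'
  have h3 := hc' false false
  have h4 := hc' false true
  have h5 := hc' true false
  have h6 := hc' true true
  have k : ∀ x, chi o f x = 1 → o f false = x ∨ o f true = x := fun x hx => by
    by_contra hh
    push Not at hh
    simp [chi, hh.1, hh.2] at hx
  have k1 := k (o e false) (by rw [h]; simp [chi, h1.symm, h3.symm, h4.symm])
  have k2 := k (o e true) (by rw [h]; simp [chi, h1, h5.symm, h6.symm])
  have k3 := k (o e' false) (by rw [h]; simp [chi, h2.symm, h3, h5])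
  omega

/-- first element of the pair tested by a test label -/
def t1 (e : ℕ) : ℕ := if e % 9 = 5 then 9 * (e / 9) else 9 * (e / 9) + 3

/-- second element of the pair tested by a test label -/
def t2 (e : ℕ) : ℕ :=
  if e % 9 ≤ 6 then 9 * (e / 9) + 1 else if e % 9 = 7 then 9 * (e / 9) + 2 else 9 * (e / 9) + 4

theorem t1_mem {e : ℕ} (he : IsTest n e) : t1 e ∈ F n := by
  have := he.1
  unfold t1
  split_ifs <;> constructor <;> omega

theorem t2_mem {e : ℕ} (he : IsTest n e) : t2 e ∈ F n := by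
  have := he.1
  unfold t2
  split_ifs <;> constructor <;> omega

theorem a_test {e : ℕ} (he : IsTest n e) : a e = a (t1 e) + a (t2 e) := by
  obtain ⟨v, j, hj, rfl⟩ := exists_lab e
  have h5 : 5 ≤ j := by
    have := he.2
    omega
  have e1 : (9 * v + j) / 9 = v := by omega
  have e2 : (9 * v + j) % 9 = j := by omega
  have e0 := a_lab v 0 (by omega)
  have e1' := a_lab v 1 (by omega)
  have e2' := a_lab v 2 (by omega)
  have e3 := a_lab v 3 (by omega)
  have e4 := a_lab v 4 (by omega)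
  rw [a_lab v j hj]
  unfold t1 t2
  rw [e1, e2]
  interval_cases j <;> simp_all [av]

theorem blink_test {e : ℕ} {o o' : Pl} (he : IsTest n e) (h : Blink n e o o') :
    Same n o o' ∧ Touch o (t1 e) (t2 e) := by
  obtain ⟨hA, ho, ho', o₁, h₁, r, r'⟩ := h
  have s := rel_test he ho h₁ r
  have s' := rel_test he ho' h₁ r'
  refine ⟨fun f hf b f' hf' b' => (s f hf b f' hf' b').trans (s' f hf b f' hf' b').symm, ?_⟩
  rw [s.touch (t1_mem he) (t2_mem he)]
  have hcl := closed_insert n hA
  refine tri (f := e) ?_ (h₁.chi_ne hcl (Or.inr (t1_mem he))) (h₁.chi_ne hcl (Or.inr (t2_mem he)))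
  rw [h₁.exp e (Or.inl rfl), h₁.exp _ (Or.inr (t1_mem he)), h₁.exp _ (Or.inr (t2_mem he)),
    a_test he, map_add]

theorem reach_tests {l : List ℕ} {o o' : Pl} (hl : ∀ e ∈ l, IsTest n e) (h : Reach n l o o') :
    Same n o o' ∧ ∀ e ∈ l, Touch o (t1 e) (t2 e) := by
  induction l generalizing o with
  | nil => exact ⟨fun _ _ _ _ _ _ => by rw [show o = o' from h], by simp⟩
  | cons e l ih =>
    obtain ⟨o₁, h1, h2⟩ := h
    have he := hl e (by simp)
    obtain ⟨s, t⟩ := blink_test he h1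
    obtain ⟨s', t'⟩ := ih (fun f hf => hl f (by simp [hf])) h2
    refine ⟨fun f hf b f' hf' b' => (s f hf b f' hf' b').trans (s' f hf b f' hf' b'), ?_⟩
    intro f hf
    rcases List.mem_cons.1 hf with rfl | hf
    · exact t
    · have hf' := hl f (by simp [hf])
      exact (s.touch (t1_mem hf') (t2_mem hf')).2 (t' f hf)

theorem cyc {o : Pl} (ho : Good (F n) o) {v : ℕ} (hv : v < n) :
    chi o (9 * v + 4) = chi o (9 * v) + chi o (9 * v + 1) + chi o (9 * v + 2) := by
  rw [ho.exp _ ⟨by omega, by omega⟩, a_lab v 4 (by omega)]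
  simp [av]

theorem filter_chi (T : ℕ → Prop) [DecidablePred T] {o : Pl} {e : ℕ}
    (h : T (o e false) ↔ T (o e true)) :
    (chi o e).filter T = (if T (o e false) then (1 : ZMod 2) else 0) • chi o e := by
  ext x
  by_cases h1 : T (o e false)
  · have h2 := h.1 h1
    simp only [h1, if_true, one_smul, filter_apply]
    split_ifs with h3
    · rfl
    · have : o e false ≠ x := fun hx => h3 (hx ▸ h1)
      have : o e true ≠ x := fun hx => h3 (hx ▸ h2)
      simp [chi, *]
  · have h2 := mt h.2 h1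
    simp only [h1, if_false, zero_smul, filter_apply]
    split_ifs with h3
    · have : o e false ≠ x := fun hx => h1 (hx ▸ h3)
      have : o e true ≠ x := fun hx => h2 (hx ▸ h3)
      simp [chi, *]
    · rfl

theorem blk_conn {o : Pl} (ho : Good (F n) o) {v : ℕ} (hv : v < n) {e e' : ℕ} (he : Blk v e)
    (he' : Blk v e') (b b' : Bool) : ∃ c : Vec, (∀ i, c i ≠ 0 → i / 9 = v ∧ i % 9 < 3) ∧
      sv (o e b) + sv (o e' b') = X o c := by
  classical
  let T : ℕ → Prop := fun x => ∃ c : Vec, (∀ i, c i ≠ 0 → i / 9 = v ∧ i % 9 < 3) ∧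
    sv (o e b) + sv x = X o c
  have hstep : ∀ f, Blk v f → ∀ x y, sv x + sv y = chi o f → T x → T y := by
    rintro f hf x y hxy ⟨c, hc, hx⟩
    refine ⟨c + a f, fun i hi => ?_, ?_⟩
    · by_cases h1 : c i = 0
      · rw [Finsupp.add_apply, h1, zero_add] at hi
        have := a_ne hi
        obtain ⟨h2, h3, h4⟩ := hf
        omega
      · exact hc i h1
    · rw [map_add, ← hx, ← ho.exp f (hf.mem hv), ← hxy, add_assoc, ← add_assoc (sv x), vadd_self,
        zero_add]
  have hiff : ∀ f, Blk v f → (T (o f false) ↔ T (o f true)) := fun f hf =>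
    ⟨hstep f hf _ _ rfl, hstep f hf _ _ (add_comm _ _)⟩
  have h0 : T (o e b) := ⟨0, by simp, by rw [vadd_self, map_zero]⟩
  let t : ℕ → ZMod 2 := fun f => if T (o f false) then 1 else 0
  have h1 := congrArg (Finsupp.filter T) (cyc ho hv)
  rw [filter_add, filter_add, filter_chi T (hiff _ ⟨by omega, by omega, by omega⟩),
    filter_chi T (hiff _ ⟨by omega, by omega, by omega⟩),
    filter_chi T (hiff _ ⟨by omega, by omega, by omega⟩),
    filter_chi T (hiff _ ⟨by omega, by omega, by omega⟩), cyc ho hv] at h1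
  have h2 := ho.inj ((t (9 * v) - t (9 * v + 4)) • sv (9 * v) +
    (t (9 * v + 1) - t (9 * v + 4)) • sv (9 * v + 1) +
    (t (9 * v + 2) - t (9 * v + 4)) • sv (9 * v + 2)) (fun i hi => by
      by_contra hc
      have e0 : 9 * v ≠ i := fun h => hc (h ▸ ⟨⟨by omega, by omega⟩, by omega⟩)
      have e1 : 9 * v + 1 ≠ i := fun h => hc (h ▸ ⟨⟨by omega, by omega⟩, by omega⟩)
      have e2 : 9 * v + 2 ≠ i := fun h => hc (h ▸ ⟨⟨by omega, by omega⟩, by omega⟩)
      simp [e0, e1, e2] at hi) (by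
      simp only [map_add, map_smul, X_sv]
      change t (9 * v + 4) • _ = t (9 * v) • _ + t (9 * v + 1) • _ + t (9 * v + 2) • _ at h1
      linear_combination (norm := module) -h1)
  have k0 := DFunLike.congr_fun h2 (9 * v)
  have k1 := DFunLike.congr_fun h2 (9 * v + 1)
  have k2 := DFunLike.congr_fun h2 (9 * v + 2)
  simp [sub_eq_zero] at k0 k1 k2
  have hall : ∀ f, Blk v f → t f = t (9 * v + 4) := fun f hf => by
    obtain ⟨h3, h4, h5⟩ := hf
    have : f = 9 * v ∨ f = 9 * v + 1 ∨ f = 9 * v + 2 ∨ f = 9 * v + 4 := by omega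
    rcases this with rfl | rfl | rfl | rfl <;> first | assumption | rfl
  have h3 : T (o e false) := by
    cases b
    exacts [h0, (hiff e he).2 h0]
  have h4 : t e' = 1 := by
    rw [hall e' he', ← hall e he]
    simp [t, h3]
  have h5 : T (o e' false) := by
    by_contra hc
    simp [t, hc] at h4
  cases b'
  exacts [h5, (hiff e' he').1 h5]

theorem rel_inn {o o₁ : Pl} (h₁ : Good (insert (9 * n) (F n)) o₁) (h : Rel (F n) (9 * n) o o₁) :
    Inn n o o₁ := by
  obtain ⟨κ, c, h1, h2⟩ := h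
  intro v hv e e' he he' b b'
  rw [h1 e (he.mem hv), h1 e' (he'.mem hv), h2 e (Or.inr (he.mem hv)) b e' (Or.inr (he'.mem hv)) b']
  refine ⟨fun h => h.elim id fun ⟨_, hs⟩ => ?_, Or.inl⟩
  obtain ⟨c', hc', hx⟩ := blk_conn (h₁.mono (Set.subset_insert _ _)) hv he he' b b'
  have h3 : sv (o₁ e b) + sv (o₁ e' b') = chi o₁ (9 * n) := by
    rcases Sym2.eq_iff.1 hs with ⟨h4, h5⟩ | ⟨h4, h5⟩ <;> rw [h4, h5]
    exacts [rfl, add_comm _ _]
  have h4 := h₁.inj (c' + sv (9 * n)) (fun i hi => by
    by_cases h5 : i = 9 * n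
    · exact ⟨Or.inl h5, by omega⟩
    · have := hc' i (by simpa [Ne.symm h5] using hi)
      exact ⟨Or.inr ⟨by omega, by omega⟩, by omega⟩) (by rw [map_add, ← hx, h3, X_sv, vadd_self])
  have h5 := DFunLike.congr_fun h4 (9 * n)
  have h6 : c' (9 * n) = 0 := by
    by_contra h6
    have := hc' _ h6
    omega
  simp [h6] at h5

theorem Blink.inn {e : ℕ} {o o' : Pl} (h : Blink n e o o') : Inn n o o' := by
  rcases h.1 with rfl | he
  · obtain ⟨-, -, -, o₁, h₁, r, r'⟩ := h
    exact fun v hv f f' hf hf' b b' =>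
      (rel_inn h₁ r v hv f f' hf hf' b b').trans (rel_inn h₁ r' v hv f f' hf hf' b b').symm
  · exact (blink_test he h).1.inn

theorem Reach.inn {l : List ℕ} {o o' : Pl} (h : Reach n l o o') : Inn n o o' := by
  induction l generalizing o with
  | nil => exact fun _ _ _ _ _ _ _ _ => by rw [show o = o' from h]
  | cons e l ih =>
    obtain ⟨o₁, h1, h2⟩ := h
    exact fun v hv f f' hf hf' b b' =>
      (h1.inn v hv f f' hf hf' b b').trans (ih h2 v hv f f' hf hf' b b')

theorem touch_val {o : Pl} {e q : ℕ} (ht : Touch o q e) (he : chi o e ≠ 0) (hq : chi o q ≠ 0)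
    (hne : chi o e + chi o q ≠ 0) : chi o e (o q false) + chi o e (o q true) = 1 := by
  have h1 := sv_ne he
  have h2 := sv_ne hq
  have h3 : ¬ (o e false = o q false ∧ o e true = o q true) := fun h =>
    hne (by rw [chi, chi, h.1, h.2, vadd_self])
  have h4 : ¬ (o e false = o q true ∧ o e true = o q false) := fun h =>
    hne (by rw [chi, chi, h.1, h.2, add_comm (sv (o q true)), vadd_self])
  obtain ⟨b, b', hb⟩ := ht
  simp only [chi, Finsupp.add_apply, single_apply]
  cases b <;> cases b' <;> split_ifs <;> first | rfl | omega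

theorem not_three {o : Pl} (ho : Good (F n) o) {v : ℕ} (hv : v < n)
    (hp : Touch o (9 * v + 1) (9 * v)) (hr : Touch o (9 * v + 1) (9 * v + 2))
    (hs : Touch o (9 * v + 1) (9 * v + 4)) : False := by
  have hq := ho.chi_ne (closed_F n) (e := 9 * v + 1) ⟨by omega, by omega⟩
  have key : ∀ j, j < 5 → j ≠ 1 → j ≠ 3 → Touch o (9 * v + 1) (9 * v + j) →
      chi o (9 * v + j) (o (9 * v + 1) false) + chi o (9 * v + j) (o (9 * v + 1) true) = 1 := by
    intro j h5 h1 h3 ht
    have hm : 9 * v + j ∈ F n := ⟨by omega, by omega⟩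
    refine touch_val ht (ho.chi_ne (closed_F n) hm) hq fun h0 => ?_
    have h2 := ho.inj (a (9 * v + j) + sv (9 * v + 1)) (fun i hi => by
      by_cases h5 : i = 9 * v + 1
      · exact ⟨⟨by omega, by omega⟩, by omega⟩
      · have := a_ne (e := 9 * v + j) (i := i) (by simpa [Ne.symm h5] using hi)
        exact ⟨⟨by omega, by omega⟩, by omega⟩) (by rw [map_add, ← ho.exp _ hm, X_sv, h0])
    rw [a_lab v j (by omega)] at h2
    have k0 := DFunLike.congr_fun h2 (9 * v)
    have k2 := DFunLike.congr_fun h2 (9 * v + 2)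
    interval_cases j <;> simp [av] at k0 k2 h1 h3
  have k0 := key 0 (by omega) (by omega) (by omega) hp
  have k2 := key 2 (by omega) (by omega) (by omega) hr
  have k4 := key 4 (by omega) (by omega) (by omega) hs
  have k1 : chi o (9 * v + 1) (o (9 * v + 1) false) + chi o (9 * v + 1) (o (9 * v + 1) true) = 0 := by
    have := sv_ne hq
    simp [chi, this, this.symm]
    rfl
  rw [cyc ho hv] at k4
  simp only [Finsupp.add_apply, add_zero] at k0 k4
  have : (1 : ZMod 2) + 0 + 1 = 1 := by linear_combination k4 - k0 - k1 - k2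
  exact absurd this (by decide)

end Pool.Agent.P.MP_bd026d_co
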