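import Mathlib
import Pool.Agent.P.MP_bd026d_co.Sound

/-!
The counting lemma: moving `k` markers needs `2k` coloop rounds.
-/

namespace Pool.Agent.P.MP_bd026d_co

open Finsupp Module Submodule

variable {n : ℕ}

/-- vectors indexed by ends of edges -/
abbrev Vn := (ℕ × Bool) →₀ ZMod 2

/-- unit vector -/
noncomputable abbrev su (u : ℕ × Bool) : Vn := single u 1

/-- the subspace spanned by the differences of related ends -/
noncomputable def Wr (n : ℕ) (r : ℕ × Bool → ℕ × Bool → Prop) : Submodule (ZMod 2) Vn :=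
  span (ZMod 2) {z | ∃ u w, u.1 ∈ F n ∧ w.1 ∈ F n ∧ r u w ∧ z = su u + su w}

theorem finite_F : (F n).Finite := (Set.finite_lt_nat (9 * n)).subset fun _ h => h.1

instance (r : ℕ × Bool → ℕ × Bool → Prop) : FiniteDimensional (ZMod 2) (Wr n r) := by
  have h := (finite_F (n := n)).prod (Set.toFinite (Set.univ : Set Bool))
  refine FiniteDimensional.span_of_finite _ (((h.prod h).image fun p => su p.1 + su p.2).subset ?_)
  rintro z ⟨u, w, hu, hw, -, rfl⟩
  exact ⟨(u, w), ⟨⟨hu, trivial⟩, ⟨hw, trivial⟩⟩, rfl⟩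

theorem Wr_mono {r r' : ℕ × Bool → ℕ × Bool → Prop}
    (h : ∀ u w, u.1 ∈ F n → w.1 ∈ F n → r u w → r' u w) : Wr n r ≤ Wr n r' :=
  span_mono fun _ ⟨u, w, hu, hw, hr, hz⟩ => ⟨u, w, hu, hw, h u w hu hw hr, hz⟩

theorem mem_Wr {r : ℕ × Bool → ℕ × Bool → Prop} {u w : ℕ × Bool} (hu : u.1 ∈ F n)
    (hw : w.1 ∈ F n) (h : r u w) : su u + su w ∈ Wr n r :=
  subset_span ⟨u, w, hu, hw, h, rfl⟩

/-- the subspace of a placement -/
noncomputable abbrev W (n : ℕ) (o : Pl) : Submodule (ZMod 2) Vn := Wr n fun u w => o u.1 u.2 = o w.1 w.2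

/-- the subspace after contracting `g` -/
noncomputable abbrev Wc (n g : ℕ) (o : Pl) : Submodule (ZMod 2) Vn := Wr n fun u w =>
  o u.1 u.2 = o w.1 w.2 ∨ s(o u.1 u.2, o w.1 w.2) = s(o g false, o g true)

theorem Rel.W_eq {g : ℕ} {o o₁ : Pl} (h : Rel (F n) g o o₁) :
    W n o = W n o₁ ∨ W n o = Wc n g o₁ := by
  obtain ⟨κ, c, h1, h2⟩ := h
  have h3 : ∀ u w : ℕ × Bool, u.1 ∈ F n → w.1 ∈ F n → (o u.1 u.2 = o w.1 w.2 ↔ _) :=
    fun u w hu hw => by rw [h1 _ hu, h1 _ hw, h2 _ (Or.inr hu) _ _ (Or.inr hw)]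
  by_cases hc : c
  · exact Or.inr (le_antisymm (Wr_mono fun u w hu hw h => by simpa [hc] using (h3 u w hu hw).1 h)
      (Wr_mono fun u w hu hw h => (h3 u w hu hw).2 (by simpa [hc] using h)))
  · exact Or.inl (le_antisymm (Wr_mono fun u w hu hw h => by simpa [hc] using (h3 u w hu hw).1 h)
      (Wr_mono fun u w hu hw h => (h3 u w hu hw).2 (Or.inl h)))

theorem Wc_le (g : ℕ) (o : Pl) : ∃ y, Wc n g o ≤ W n o ⊔ span (ZMod 2) {y} := by
  by_cases h : ∃ u w : ℕ × Bool, u.1 ∈ F n ∧ w.1 ∈ F n ∧ o u.1 u.2 = o g false ∧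
      o w.1 w.2 = o g true
  · obtain ⟨u₀, w₀, hu₀, hw₀, h1, h2⟩ := h
    refine ⟨su u₀ + su w₀, span_le.2 ?_⟩
    have key : ∀ u w : ℕ × Bool, u.1 ∈ F n → w.1 ∈ F n → o u.1 u.2 = o g false →
        o w.1 w.2 = o g true → su u + su w ∈ W n o ⊔ span (ZMod 2) {su u₀ + su w₀} := by
      intro u w hu hw h3 h4
      have : su u + su w = (su u + su u₀) + (su w + su w₀) + (su u₀ + su w₀) := by
        have k := ZModModule.add_self (su u₀ + su w₀)
        linear_combination (norm := module) -k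
      rw [this]
      exact add_mem (mem_sup_left (add_mem (mem_Wr hu hu₀ (h3.trans h1.symm))
        (mem_Wr hw hw₀ (h4.trans h2.symm)))) (mem_sup_right (subset_span rfl))
    rintro z ⟨u, w, hu, hw, hr | hr, rfl⟩
    · exact mem_sup_left (mem_Wr hu hw hr)
    · rcases Sym2.eq_iff.1 hr with h3 | h3
      · exact key u w hu hw h3.1 h3.2
      · rw [add_comm (su u)]
        exact key w u hw hu h3.2 h3.1
  · refine ⟨0, le_sup_of_le_left (Wr_mono fun u w hu hw hr => hr.elim id fun hs => ?_)⟩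
    rcases Sym2.eq_iff.1 hs with h3 | h3
    · exact absurd ⟨u, w, hu, hw, h3.1, h3.2⟩ h
    · exact absurd ⟨w, u, hw, hu, h3.2, h3.1⟩ h

theorem finrank_sup_single (A : Submodule (ZMod 2) Vn) [FiniteDimensional (ZMod 2) A] (y : Vn) :
    finrank (ZMod 2) ↥(A ⊔ span (ZMod 2) {y}) ≤ finrank (ZMod 2) A + 1 := by
  refine (finrank_add_le_finrank_add_finrank _ _).trans (Nat.add_le_add_left ?_ _)
  simpa using finrank_span_le_card (R := ZMod 2) ({y} : Set Vn)

theorem pot_step (A B S : Submodule (ZMod 2) Vn) [FiniteDimensional (ZMod 2) A]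
    [FiniteDimensional (ZMod 2) B] [FiniteDimensional (ZMod 2) S] (hAB : A ≤ B) {y : Vn}
    (hB : B ≤ A ⊔ span (ZMod 2) {y}) :
    2 * finrank (ZMod 2) ↥(B ⊔ S) + finrank (ZMod 2) A ≤
        2 * finrank (ZMod 2) ↥(A ⊔ S) + finrank (ZMod 2) B + 1 ∧
      2 * finrank (ZMod 2) ↥(A ⊔ S) + finrank (ZMod 2) B ≤
        2 * finrank (ZMod 2) ↥(B ⊔ S) + finrank (ZMod 2) A + 1 := by
  rcases hAB.eq_or_lt with rfl | hlt
  · omega
  have h1 := finrank_lt_finrank_of_lt hlt
  have h2 := (finrank_mono hB).trans (finrank_sup_single A y)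
  have h3 : finrank (ZMod 2) ↥(A ⊔ S) ≤ finrank (ZMod 2) ↥(B ⊔ S) :=
    finrank_mono (sup_le_sup_right hAB S)
  have h4 : finrank (ZMod 2) ↥(B ⊔ S) ≤ finrank (ZMod 2) ↥(A ⊔ S) + 1 := by
    refine (finrank_mono ?_).trans (finrank_sup_single (A ⊔ S) y)
    exact sup_le (hB.trans (sup_le_sup_right le_sup_left _)) (le_sup_of_le_left le_sup_right)
  omega

theorem Blink.pot {g : ℕ} {o o' : Pl} (h : Blink n g o o') (S : Submodule (ZMod 2) Vn)
    [FiniteDimensional (ZMod 2) S] :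
    2 * finrank (ZMod 2) ↥(W n o' ⊔ S) + finrank (ZMod 2) (W n o) ≤
      2 * finrank (ZMod 2) ↥(W n o ⊔ S) + finrank (ZMod 2) (W n o') + 1 := by
  obtain ⟨-, -, -, o₁, -, r, r'⟩ := h
  obtain ⟨y, hy⟩ := Wc_le (n := n) g o₁
  have := pot_step (W n o₁) (Wc n g o₁) S (Wr_mono fun _ _ _ _ h => Or.inl h) hy
  rcases r.W_eq with h1 | h1 <;> rcases r'.W_eq with h2 | h2 <;> rw [h1, h2] <;> omega

theorem Reach.pot {l : List ℕ} {o o' : Pl} (h : Reach n l o o') (S : Submodule (ZMod 2) Vn)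
    [FiniteDimensional (ZMod 2) S] :
    2 * finrank (ZMod 2) ↥(W n o' ⊔ S) + finrank (ZMod 2) (W n o) ≤
      2 * finrank (ZMod 2) ↥(W n o ⊔ S) + finrank (ZMod 2) (W n o') + l.length := by
  induction l generalizing o with
  | nil => rw [show o = o' from h]; omega
  | cons e l ih =>
    obtain ⟨o₁, h1, h2⟩ := h
    have := h1.pot S
    have := ih h2
    rw [List.length_cons]
    omega

/-- evaluation of formal sums of ends -/
noncomputable def Tm (o : Pl) : Vn →ₗ[ZMod 2] Vec :=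
  linearCombination (ZMod 2) fun u => sv (o u.1 u.2)

theorem W_le_ker (o : Pl) : W n o ≤ LinearMap.ker (Tm o) := span_le.2 <| by
  rintro z ⟨u, w, -, -, h, rfl⟩
  simp [Tm, h, vadd_self]

theorem rank_gain {o : Pl} (ho : Good (F n) o) (K : Finset ℕ) (hK : ∀ v ∈ K, v < n)
    (U : Submodule (ZMod 2) Vn) [FiniteDimensional (ZMod 2) U] (hU : W n o ≤ U) (y : ℕ → Vn)
    (hy : ∀ v ∈ K, y v ∈ U) (c : ℕ → Vec) (hc : ∀ v ∈ K, ∀ i, c v i ≠ 0 → i / 9 = v ∧ i % 9 < 4)
    (hc0 : ∀ v ∈ K, c v ≠ 0) (hyc : ∀ v ∈ K, Tm o (y v) = X o (c v)) :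
    finrank (ZMod 2) (W n o) + K.card ≤ finrank (ZMod 2) U := by
  have hli : LinearIndependent (ZMod 2) (Tm o ∘ fun v : K => y v) := by
    rw [Fintype.linearIndependent_iff]
    intro g hg v
    have h1 := ho.inj (∑ v : K, g v • c v) (fun i hi => by
      rw [Finsupp.finsetSum_apply] at hi
      obtain ⟨w, -, hw⟩ := Finset.exists_ne_zero_of_sum_ne_zero hi
      have := hc w w.2 i fun h0 => hw (by simp [h0])
      have := hK w w.2
      exact ⟨⟨by omega, by omega⟩, by omega⟩) (by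
      rw [map_sum, ← hg]
      exact Finset.sum_congr rfl fun w _ => by rw [map_smul, ← hyc w w.2]; rfl)
    obtain ⟨i, hi⟩ := Finsupp.ne_iff.1 (hc0 v v.2)
    have h2 := DFunLike.congr_fun h1 i
    rw [Finsupp.finsetSum_apply, Finset.sum_eq_single v] at h2
    · simpa [show c v i ≠ 0 from hi] using h2
    · intro w _ hw
      have : c w i = 0 := by
        by_contra h3
        exact hw (Subtype.ext ((hc w w.2 i h3).1.symm.trans (hc v v.2 i hi).1))
      simp [this]
    · simp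
  have hli' := hli.of_comp
  have hd : Disjoint (W n o) (span (ZMod 2) (Set.range fun v : K => y v)) := by
    refine Disjoint.mono_left (W_le_ker o) ?_
    rw [disjoint_comm]
    exact Submodule.range_ker_disjoint hli
  have : FiniteDimensional (ZMod 2) (span (ZMod 2) (Set.range fun v : K => y v)) :=
    FiniteDimensional.span_of_finite _ (Set.finite_range _)
  have h1 := finrank_sup_add_finrank_inf_eq (W n o) (span (ZMod 2) (Set.range fun v : K => y v))
  rw [hd.eq_bot, finrank_bot, finrank_span_eq_card hli', Fintype.card_coe] at h1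
  have h2 : finrank (ZMod 2) ↥(W n o ⊔ span (ZMod 2) (Set.range fun v : K => y v)) ≤
      finrank (ZMod 2) U :=
    finrank_mono (sup_le hU (span_le.2 (by rintro _ ⟨v, rfl⟩; exact hy v v.2)))
  omega

theorem gain_vec {o : Pl} (ho : Good (F n) o) {v : ℕ} (hv : v < n) {e e' : ℕ} (he : Blk v e)
    (he' : Blk v e') {b b' : Bool} (hne : o e b ≠ o e' b') (d d' : Bool) :
    ∃ c : Vec, (∀ i, c i ≠ 0 → i / 9 = v ∧ i % 9 < 4) ∧ c ≠ 0 ∧
      Tm o (su (9 * v + 3, d) + su (e, b) + (su (9 * v + 3, d') + su (e', b'))) = X o c := by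
  obtain ⟨c, hc, hx⟩ := blk_conn ho hv he he' b b'
  have hT : Tm o (su (9 * v + 3, d) + su (e, b) + (su (9 * v + 3, d') + su (e', b'))) =
      X o c + (sv (o (9 * v + 3) d) + sv (o (9 * v + 3) d')) := by
    simp only [Tm, map_add, linearCombination_single, one_smul, ← hx]
    abel
  rw [hT]
  by_cases hd : d = d'
  · refine ⟨c, fun i hi => ⟨(hc i hi).1, by have := hc i hi; omega⟩, ?_, by
      rw [hd, vadd_self, add_zero]⟩
    rintro rfl
    exact hne (sv_eq (by rw [hx, map_zero]))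
  · refine ⟨c + sv (9 * v + 3), fun i hi => ?_, fun h0 => ?_, ?_⟩
    · by_cases h5 : i = 9 * v + 3
      · omega
      · have := hc i (by simpa [Ne.symm h5] using hi)
        omega
    · have h5 := DFunLike.congr_fun h0 (9 * v + 3)
      have h6 : c (9 * v + 3) = 0 := by
        by_contra h6
        have := hc _ h6
        omega
      simp [h6] at h5
    · rw [map_add, X_sv, chi]
      cases d <;> cases d' <;> simp_all [add_comm]

theorem budget {l : List ℕ} {o o' : Pl} (ho : Good (F n) o) (h : Reach n l o o') (K : Finset ℕ)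
    (hK : ∀ v ∈ K, v < n) {j : ℕ} (hj : j = 2 ∨ j = 4)
    (h1 : ∀ v ∈ K, Touch o (9 * v + 3) (9 * v + 1)) (h2 : ∀ v ∈ K, Touch o' (9 * v + 3) (9 * v + j))
    (h3 : ∀ v ∈ K, ¬ Touch o (9 * v + 1) (9 * v + j)) : 2 * K.card ≤ l.length := by
  have hp := h.pot (W n o)
  have ho' := h.good ho
  choose! d b hdb using h1
  choose! d' b' hdb' using h2
  have hq : ∀ v, Blk v (9 * v + 1) := fun v => ⟨by omega, by omega, by omega⟩
  have hr : ∀ v, Blk v (9 * v + j) := fun v => ⟨by omega, by omega, by omega⟩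
  have hne : ∀ v ∈ K, o (9 * v + 1) (b v) ≠ o (9 * v + j) (b' v) := fun v hv h0 =>
    h3 v hv ⟨_, _, h0⟩
  have hne' : ∀ v ∈ K, o' (9 * v + 1) (b v) ≠ o' (9 * v + j) (b' v) := fun v hv h0 =>
    hne v hv ((h.inn v (hK v hv) _ _ (hq v) (hr v) _ _).2 h0)
  let y : ℕ → Vn := fun v =>
    su (9 * v + 3, d v) + su (9 * v + 1, b v) + (su (9 * v + 3, d' v) + su (9 * v + j, b' v))
  have hy : ∀ v ∈ K, y v ∈ W n o' ⊔ W n o := fun v hv => by
    have hm : 9 * v + 3 ∈ F n := ⟨by have := hK v hv; omega, by omega⟩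
    exact add_mem (mem_sup_right (mem_Wr hm ((hq v).mem (hK v hv)) (hdb v hv)))
      (mem_sup_left (mem_Wr hm ((hr v).mem (hK v hv)) (hdb' v hv)))
  choose! c hc hc0 hyc using fun v (hv : v ∈ K) =>
    gain_vec ho (hK v hv) (hq v) (hr v) (hne v hv) (d v) (d' v)
  choose! c' hc' hc0' hyc' using fun v (hv : v ∈ K) =>
    gain_vec ho' (hK v hv) (hq v) (hr v) (hne' v hv) (d v) (d' v)
  have k1 := rank_gain ho K hK _ le_sup_right y hy c hc hc0 hyc
  have k2 := rank_gain ho' K hK _ le_sup_left y hy c' hc' hc0' hyc'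
  rw [sup_idem] at hp
  omega

/-- the round that forbids choosing both `u` and `v` -/
def round (n u v : ℕ) : List ℕ :=
  [9 * u + 6, 9 * v + 6] ++ ([9 * n, 9 * n] ++ ([9 * u + 8, 9 * v + 8] ++ [9 * n, 9 * n]))

/-- the schedule -/
def sched (n k : ℕ) (nb : ℕ → ℕ → Bool) : List ℕ :=
  (List.range n).map (fun v => 9 * v + 5) ++
    (((List.range n).flatMap fun u => (List.range n).flatMap fun v =>
      bif nb u v then round n u v else []) ++
    ((List.range n).map (fun v => 9 * v + 6) ++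
      (List.replicate (2 * (n - k)) (9 * n) ++ (List.range n).map fun v => 9 * v + 7)))

theorem Reach.flatMap {l : List ℕ} {f : ℕ → List ℕ} {o o' : Pl} (h : Reach n (l.flatMap f) o o')
    {x : ℕ} (hx : x ∈ l) : ∃ l' o₁ o₂, Reach n l' o o₁ ∧ Reach n (f x) o₁ o₂ := by
  obtain ⟨s, t, rfl⟩ := List.append_of_mem hx
  rw [List.flatMap_append, List.flatMap_cons, reach_append] at h
  obtain ⟨o₁, h1, h2⟩ := h
  obtain ⟨o₂, h3, -⟩ := reach_append.1 h2
  exact ⟨_, o₁, o₂, h1, h3⟩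

theorem t_lab (v j : ℕ) (hj : j < 9) : t1 (9 * v + j) = (if j = 5 then 9 * v else 9 * v + 3) ∧
    t2 (9 * v + j) = if j ≤ 6 then 9 * v + 1 else if j = 7 then 9 * v + 2 else 9 * v + 4 := by
  have e1 : (9 * v + j) / 9 = v := by omega
  have e2 : (9 * v + j) % 9 = j := by omega
  simp [t1, t2, e1, e2]

theorem three_phase {l₁ l₂ l₃ : List ℕ} {o o' : Pl} (ho : Good (F n) o)
    (h : Reach n (l₁ ++ (l₂ ++ l₃)) o o') (h₁ : ∀ e ∈ l₁, IsTest n e) (h₃ : ∀ e ∈ l₃, IsTest n e)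
    (K : Finset ℕ) (hK : ∀ v ∈ K, v < n) {j : ℕ} (hj : j = 2 ∨ j = 4)
    (k₁ : ∀ v ∈ K, 9 * v + 6 ∈ l₁) (k₃ : ∀ v ∈ K, 9 * v + (6 + j / 2) ∈ l₃)
    (h3 : ∀ v ∈ K, ¬ Touch o (9 * v + 1) (9 * v + j)) : 2 * K.card ≤ l₂.length := by
  obtain ⟨o₁, r₁, h⟩ := reach_append.1 h
  obtain ⟨o₂, r₂, r₃⟩ := reach_append.1 h
  obtain ⟨s₁, t₁⟩ := reach_tests h₁ r₁
  obtain ⟨-, t₃⟩ := reach_tests h₃ r₃
  refine budget (r₁.good ho) r₂ K hK hj (fun v hv => ?_) (fun v hv => ?_) fun v hv => ?_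
  · have := t₁ _ (k₁ v hv)
    rw [(t_lab v 6 (by omega)).1, (t_lab v 6 (by omega)).2] at this
    have hv' := hK v hv
    exact (s₁.touch ⟨by omega, by omega⟩ ⟨by omega, by omega⟩).1 this
  · have := t₃ _ (k₃ v hv)
    rw [(t_lab v _ (by omega)).1, (t_lab v _ (by omega)).2] at this
    rcases hj with rfl | rfl <;> exact this
  · have hv' := hK v hv
    rw [← s₁.touch ⟨by omega, by omega⟩ ⟨by omega, by omega⟩]
    exact h3 v hv

theorem sound {k : ℕ} {nb : ℕ → ℕ → Bool} (hnb : ∀ u v, nb u v = true → u ≠ v) (hk : k ≤ n)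
    {o o' : Pl} (ho : Good (F n) o) (h : Reach n (sched n k nb) o o') :
    ∃ K : Finset ℕ, (∀ v ∈ K, v < n) ∧ k ≤ K.card ∧ ∀ u ∈ K, ∀ v ∈ K, nb u v = false := by
  classical
  have hT : ∀ j, 5 ≤ j → j < 9 → ∀ e ∈ (List.range n).map (fun v => 9 * v + j), IsTest n e := by
    intro j h5 h9 e he
    obtain ⟨v, hv, rfl⟩ := List.mem_map.1 he
    have := List.mem_range.1 hv
    constructor <;> omega
  obtain ⟨o₁, r₁, h⟩ := reach_append.1 h
  obtain ⟨o₂, r₂, r₃⟩ := reach_append.1 h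
  obtain ⟨s₁, t₁⟩ := reach_tests (hT 5 (by omega) (by omega)) r₁
  have hb : ∀ v j, j = 0 ∨ j = 1 ∨ j = 2 ∨ j = 4 → Blk v (9 * v + j) := fun v j hj =>
    ⟨by omega, by omega, by omega⟩
  refine ⟨(Finset.range n).filter fun v => Touch o (9 * v + 1) (9 * v + 2), fun v hv =>
    Finset.mem_range.1 (Finset.mem_filter.1 hv).1, ?_, fun u hu v hv => ?_⟩
  · have := three_phase (r₂.good (r₁.good ho)) r₃ (hT 6 (by omega) (by omega))
      (hT 7 (by omega) (by omega))
      ((Finset.range n).filter fun v => ¬ Touch o (9 * v + 1) (9 * v + 2))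
      (fun v hv => Finset.mem_range.1 (Finset.mem_filter.1 hv).1) (Or.inl rfl)
      (fun v hv => List.mem_map.2 ⟨v, by simpa using (Finset.mem_filter.1 hv).1, rfl⟩)
      (fun v hv => List.mem_map.2 ⟨v, by simpa using (Finset.mem_filter.1 hv).1, rfl⟩)
      (fun v hv => by
        have hv' := Finset.mem_filter.1 hv
        have hvn := Finset.mem_range.1 hv'.1
        rw [← r₂.inn.touch hvn (hb v 1 (by omega)) (hb v 2 (by omega)),
          ← r₁.inn.touch hvn (hb v 1 (by omega)) (hb v 2 (by omega))]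
        exact hv'.2)
    have h2 := Finset.card_filter_add_card_filter_not (s := Finset.range n)
      fun v => Touch o (9 * v + 1) (9 * v + 2)
    rw [List.length_replicate] at this
    rw [Finset.card_range] at h2
    omega
  · by_contra hc
    rw [Bool.not_eq_false] at hc
    obtain ⟨hu, hu'⟩ := Finset.mem_filter.1 hu
    obtain ⟨hv, hv'⟩ := Finset.mem_filter.1 hv
    obtain ⟨l₃, o₃, o₄, r₃, r₄⟩ := r₂.flatMap (x := u) (by simpa using hu)
    obtain ⟨l₅, o₅, o₆, r₅, r₆⟩ := r₄.flatMap (x := v) (by simpa using hv)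
    rw [Finset.mem_range] at hu hv
    rw [hc, Bool.cond_true, round, ← List.append_assoc [9 * n, 9 * n], ← List.append_assoc,
      reach_append] at r₆
    obtain ⟨o₇, r₇, -⟩ := r₆
    have hKn : ∀ w ∈ ({u, v} : Finset ℕ), w < n := by simp [hu, hv]
    have := three_phase (r₅.good (r₃.good (r₁.good ho))) r₇
      (by simp only [List.mem_cons, List.not_mem_nil, or_false]
          rintro e (rfl | rfl) <;> constructor <;> omega)
      (by simp only [List.mem_cons, List.not_mem_nil, or_false]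
          rintro e (rfl | rfl) <;> constructor <;> omega)
      {u, v} hKn (Or.inr rfl) (by simp) (by simp) (fun w hw ht => by
        have hwn := hKn w hw
        rw [← r₅.inn.touch hwn (hb w 1 (by omega)) (hb w 4 (by omega)),
          ← r₃.inn.touch hwn (hb w 1 (by omega)) (hb w 4 (by omega)),
          ← r₁.inn.touch hwn (hb w 1 (by omega)) (hb w 4 (by omega))] at ht
        have h5 := t₁ _ (List.mem_map.2 ⟨w, List.mem_range.2 hwn, rfl⟩)
        rw [(t_lab w 5 (by omega)).1, (t_lab w 5 (by omega)).2] at h5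
        obtain ⟨b, b', h5⟩ := h5
        refine not_three ho hwn ⟨b', b, h5.symm⟩ ?_ ht
        rcases Finset.mem_insert.1 hw with rfl | hw
        · exact hu'
        · exact Finset.mem_singleton.1 hw ▸ hv')
    rw [Finset.card_pair (hnb u v hc)] at this
    simp at this

end Pool.Agent.P.MP_bd026d_co
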