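import Mathlib
import Pool.Agent.P.MP_bd026d_co.Budget

/-!
Completeness of the gadget.
-/

namespace Pool.Agent.P.MP_bd026d_co

open Finsupp

variable {n : ℕ}

theorem tri_inj {o : Pl} {B : ℕ → Prop} (h1 : ∀ e, B e → o e false < o e true)
    (h2 : ∀ e e', B e → B e' → o e true = o e' true → e = e') (c : Vec)
    (hc : ∀ i, c i ≠ 0 → B i) (h0 : X o c = 0) : c = 0 := by
  by_contra hne
  obtain ⟨e, he, hmax⟩ := Finset.exists_max_image c.support (fun e => o e true)
    (Finsupp.support_nonempty_iff.2 hne)
  have hB : ∀ i ∈ c.support, B i := fun i hi => hc i (mem_support_iff.1 hi)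
  have h3 := DFunLike.congr_fun h0 (o e true)
  rw [X, linearCombination_apply, Finsupp.sum, Finsupp.finsetSum_apply,
    Finset.sum_eq_single_of_mem e he] at h3
  · have := (h1 e (hB e he)).ne
    simp [chi, this] at h3
    exact mem_support_iff.1 he h3
  · intro f hf hfe
    have k1 := h1 f (hB f hf)
    have k2 := hmax f hf
    have k3 : o f true ≠ o e true := fun h => hfe (h2 f e (hB f hf) (hB e he) h)
    have k4 : o f false ≠ o e true := by omega
    simp [chi, k3, k4]

/-- offsets of the ends of label `9v + j` when the bit is `x` and the marker sits at `p` -/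
def off (x : Bool) (p : ℕ) : ℕ → Bool → ℕ
  | 0, b => bif b then 1 else 0
  | 1, b => bif b then 2 else 1
  | 2, b => bif b then 3 else bif x then 2 else 0
  | 3, b => bif b then 5 else p
  | 4, b => bif b then 3 else bif x then 0 else 2
  | 5, b => bif b then 2 else 0
  | 6, b => bif b then 5 else 1
  | 7, b => bif b then 5 else if p = 3 then (bif x then 2 else 0) else 3
  | _, b => bif b then 5 else if p = 3 then (bif x then 0 else 2) else 3

/-- the placements used in the construction -/
def pl (n : ℕ) (x : ℕ → Bool) (pos : ℕ → ℕ) (w j : ℕ) : Pl := fun e b =>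
  if e = 9 * n then (bif b then 6 * w + 4 else 6 * w + j)
  else 6 * (e / 9) + off (x (e / 9)) (pos (e / 9)) (e % 9) b

theorem pl_lab (x : ℕ → Bool) (pos : ℕ → ℕ) (w j : ℕ) {v : ℕ} (hv : v < n) {i : ℕ} (hi : i < 9)
    (b : Bool) : pl n x pos w j (9 * v + i) b = 6 * v + off (x v) (pos v) i b := by
  have e1 : (9 * v + i) / 9 = v := by omega
  have e2 : (9 * v + i) % 9 = i := by omega
  have e3 : 9 * v + i ≠ 9 * n := by omega
  simp only [pl, e1, e2, e3, if_false]

theorem pl_g (x : ℕ → Bool) (pos : ℕ → ℕ) (w j : ℕ) (b : Bool) :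
    pl n x pos w j (9 * n) b = bif b then 6 * w + 4 else 6 * w + j := by
  simp [pl]

/-- the test `e` can be carried out -/
def Ok (n : ℕ) (x : ℕ → Bool) (pos : ℕ → ℕ) (e : ℕ) : Prop :=
  e = 9 * n ∨ (IsTest n e ∧ (e % 9 = 6 → pos (e / 9) = 2) ∧
    (e % 9 = 7 → pos (e / 9) = 3 ∨ (pos (e / 9) = 2 ∧ x (e / 9) = true)) ∧
    (e % 9 = 8 → pos (e / 9) = 3 ∨ (pos (e / 9) = 2 ∧ x (e / 9) = false)))

theorem Ok.allowed {x : ℕ → Bool} {pos : ℕ → ℕ} {e : ℕ} (h : Ok n x pos e) : Allowed n e :=
  h.imp id And.left

theorem good_pl {x : ℕ → Bool} {pos : ℕ → ℕ} (hp : ∀ v, pos v < 5) {w j e : ℕ} (hj : j < 4)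
    (he : Ok n x pos e) : Good (insert e (F n)) (pl n x pos w j) := by
  constructor
  · intro c hc
    refine tri_inj (B := fun i => i ≤ 9 * n ∧ i % 9 < 4) ?_ ?_ c fun i hi => ?_
    · rintro f ⟨h1, h2⟩
      rcases h1.eq_or_lt with rfl | h1
      · simpa [pl_g] using hj
      · obtain ⟨v, i, hi, rfl⟩ := exists_lab f
        rw [pl_lab x pos w j (by omega) hi, pl_lab x pos w j (by omega) hi]
        have : i < 4 := by omega
        have := hp v
        interval_cases i <;> cases x v <;> simp [off] <;> omega
    · have key : ∀ f, f ≤ 9 * n → f % 9 < 4 → pl n x pos w j f true =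
          if f = 9 * n then 6 * w + 4 else 6 * (f / 9) + if f % 9 = 3 then 5 else f % 9 + 1 := by
        intro f h1 h2
        unfold pl
        split_ifs with h3 h4
        · rfl
        · rw [h4]; rfl
        · generalize f % 9 = i at *
          interval_cases i <;> first | rfl | omega
      rintro f f' ⟨h1, h2⟩ ⟨h3, h4⟩ h
      rw [key f h1 h2, key f' h3 h4] at h
      split_ifs at h <;> omega
    · obtain ⟨h1, h2⟩ := hc i hi
      rcases h1 with rfl | h1
      · rcases he with h | h
        · omega
        · have := h.1.2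
          omega
      · exact ⟨h1.1.le, h2⟩
  · intro f hf
    by_cases h4 : f % 9 < 4
    · rw [a_bas h4, X_sv]
    have hlt : f < 9 * n := by
      rcases hf with rfl | hf
      · rcases he with h | h
        · omega
        · exact h.1.1
      · exact hf.1
    obtain ⟨v, i, hi, rfl⟩ := exists_lab f
    have hv : v < n := by omega
    have e1 : (9 * v + i) / 9 = v := by omega
    have e2 : (9 * v + i) % 9 = i := by omega
    have hok : (i = 6 → pos v = 2) ∧ (i = 7 → pos v = 3 ∨ (pos v = 2 ∧ x v = true)) ∧
        (i = 8 → pos v = 3 ∨ (pos v = 2 ∧ x v = false)) := by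
      rcases hf with rfl | hf
      · rcases he with h | h
        · omega
        · simpa only [e1, e2] using h.2
      · have := hf.2
        refine ⟨?_, ?_, ?_⟩ <;> intro <;> omega
    have c0 := pl_lab x pos w j hv (i := 0) (by omega)
    have c1 := pl_lab x pos w j hv (i := 1) (by omega)
    have c2 := pl_lab x pos w j hv (i := 2) (by omega)
    have c3 := pl_lab x pos w j hv (i := 3) (by omega)
    have ci := pl_lab x pos w j hv hi
    rw [add_zero] at c0
    have s0 := vadd_self (sv (6 * v))
    have s1 := vadd_self (sv (6 * v + 1))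
    have s2 := vadd_self (sv (6 * v + 2))
    have s3 := vadd_self (sv (6 * v + 3))
    rw [a_lab v i hi]
    have h5 : 4 ≤ i := by omega
    obtain ⟨k6, k7, k8⟩ := hok
    interval_cases i <;> simp only [av, map_add, X_sv, chi, c0, c1, c2, c3, ci]
    · cases x v <;> simp only [off, cond_true, cond_false, add_zero]
      · linear_combination (norm := module) -s0 - s1
      · linear_combination (norm := module) -s1 - s2
    · simp only [off, cond_true, cond_false, add_zero]
      linear_combination (norm := module) -s1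
    · simp only [off, cond_true, cond_false, k6 rfl]
      linear_combination (norm := module) -s2
    · rcases k7 rfl with h | ⟨h, h'⟩
      · simp only [off, cond_true, cond_false, h, if_true]
        linear_combination (norm := module) -s3
      · simp only [off, cond_true, cond_false, h, h', show (2 : ℕ) ≠ 3 by omega, if_false]
        linear_combination (norm := module) -s2
    · rcases k8 rfl with h | ⟨h, h'⟩
      · cases x v <;> simp only [off, cond_true, cond_false, h, if_true, add_zero]
        · linear_combination (norm := module) -s0 - s1 - s3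
        · linear_combination (norm := module) -s1 - s2 - s3
      · simp only [off, cond_true, cond_false, h, h', show (2 : ℕ) ≠ 3 by omega, if_false,
          add_zero]
        linear_combination (norm := module) -s0 - s1 - s2

/-- the resting placement -/
def st (n : ℕ) (x : ℕ → Bool) (pos : ℕ → ℕ) : Pl := pl n x pos n 0

theorem good_st {x : ℕ → Bool} {pos : ℕ → ℕ} (hp : ∀ v, pos v < 5) : Good (F n) (st n x pos) :=
  (good_pl hp (by omega) (Or.inl rfl)).mono (Set.subset_insert _ _)

theorem rel_id {E : Set ℕ} {g : ℕ} {o o' : Pl} (h : ∀ e ∈ E, o' e = o e) : Rel E g o' o :=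
  ⟨id, False, fun e he b => by rw [h e he]; rfl, by simp⟩

theorem blink_ok {x : ℕ → Bool} {pos : ℕ → ℕ} (hp : ∀ v, pos v < 5) {e : ℕ} (he : Ok n x pos e) :
    Blink n e (st n x pos) (st n x pos) :=
  ⟨he.allowed, good_st hp, good_st hp, _, good_pl hp (by omega) he, rel_id fun _ _ => rfl,
    rel_id fun _ _ => rfl⟩

theorem reach_ok {x : ℕ → Bool} {pos : ℕ → ℕ} (hp : ∀ v, pos v < 5) {l : List ℕ}
    (hl : ∀ e ∈ l, Ok n x pos e) : Reach n l (st n x pos) (st n x pos) := by
  induction l with
  | nil => rfl
  | cons e l ih => exact ⟨_, blink_ok hp (hl e (by simp)), ih fun f hf => hl f (by simp [hf])⟩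

theorem blink_move {x : ℕ → Bool} {pos : ℕ → ℕ} (hp : ∀ v, pos v < 4) (w : ℕ) :
    Blink n (9 * n) (st n x pos) (st n x (Function.update pos w 4)) := by
  have hp' : ∀ v, Function.update pos w 4 v < 5 := fun v => by
    have := hp v
    rw [Function.update_apply]
    split_ifs <;> omega
  refine ⟨Or.inl rfl, good_st fun v => (hp v).trans (by omega), good_st hp',
    pl n x (Function.update pos w 4) w (pos w), good_pl hp' (hp w) (Or.inl rfl),
    ⟨fun y => if y = 6 * w + 4 then 6 * w + pos w else y, True, fun e he b => ?_,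
      fun e _ b e' _ b' => ?_⟩, rel_id fun e he => ?_⟩
  · obtain ⟨v, i, hi, rfl⟩ := exists_lab e
    have h1 := he.1
    have h2 := he.2
    have hv : v < n := by omega
    have h5 : i < 5 := by omega
    have h6 := hp v
    rw [st, pl_lab _ _ _ _ hv hi, pl_lab _ _ _ _ hv hi]
    by_cases hvw : v = w
    · subst hvw
      interval_cases i <;> cases b <;> cases x v <;> simp [off]
    · rw [Function.update_of_ne hvw]
      refine (if_neg ?_).symm
      interval_cases i <;> cases b <;> cases x v <;> simp [off] <;> omega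
  · have := hp w
    simp only [pl_g, cond_true, cond_false, true_and, Sym2.eq_iff]
    generalize pl n x (Function.update pos w 4) w (pos w) e b = y
    generalize pl n x (Function.update pos w 4) w (pos w) e' b' = z
    split_ifs <;> omega
  · have : e ≠ 9 * n := he.1.ne
    funext b
    simp [st, pl, this]

/-- markers in `K` are moved -/
def posS (K : Finset ℕ) (v : ℕ) : ℕ := if v ∈ K then 3 else 2

theorem posS_lt (K : Finset ℕ) (v : ℕ) : posS K v < 4 := by
  unfold posS
  split_ifs <;> omega

theorem posS_lt' (K : Finset ℕ) (v : ℕ) : posS K v < 5 := (posS_lt K v).trans (by omega)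

theorem reach_move (x : ℕ → Bool) (K : Finset ℕ) {T : ℕ} (hT : 2 * K.card ≤ T) :
    Reach n (List.replicate T (9 * n)) (st n x (posS ∅)) (st n x (posS K)) := by
  induction K using Finset.induction_on generalizing T with
  | empty => exact reach_ok (posS_lt' _) fun e he => Or.inl (List.eq_of_mem_replicate he)
  | insert w K hw ih =>
    rw [Finset.card_insert_of_notMem hw] at hT
    obtain ⟨T, rfl⟩ : ∃ T', T = T' + 2 := ⟨T - 2, by omega⟩
    rw [List.replicate_add, reach_append]
    refine ⟨_, ih (by omega), _, blink_move (posS_lt K) w, _, ?_, rfl⟩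
    have := (blink_move (n := n) (x := x) (posS_lt (insert w K)) w).symm
    convert this using 2
    funext v
    by_cases hv : v = w
    · simp [hv]
    · simp [hv, posS]

theorem reach_flatMap {l : List ℕ} {f : ℕ → List ℕ} {o : Pl} (h : ∀ v ∈ l, Reach n (f v) o o) :
    Reach n (l.flatMap f) o o := by
  induction l with
  | nil => rfl
  | cons v l ih =>
    rw [List.flatMap_cons, reach_append]
    exact ⟨o, h v (by simp), ih fun u hu => h u (by simp [hu])⟩

theorem ok_lab {x : ℕ → Bool} {pos : ℕ → ℕ} {v j : ℕ} (hv : v < n) (h5 : 5 ≤ j) (h9 : j < 9)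
    (h6 : j = 6 → pos v = 2) (h7 : j = 7 → pos v = 3 ∨ (pos v = 2 ∧ x v = true))
    (h8 : j = 8 → pos v = 3 ∨ (pos v = 2 ∧ x v = false)) : Ok n x pos (9 * v + j) := by
  have e1 : (9 * v + j) / 9 = v := by omega
  have e2 : (9 * v + j) % 9 = j := by omega
  refine Or.inr ⟨⟨by omega, by omega⟩, ?_⟩
  rw [e1, e2]
  exact ⟨h6, h7, h8⟩

theorem complete {k : ℕ} {nb : ℕ → ℕ → Bool} (K : Finset ℕ) (hK : ∀ v ∈ K, v < n)
    (hk : k ≤ K.card) (hnb : ∀ u ∈ K, ∀ v ∈ K, nb u v = false) :
    ∃ o o', Good (F n) o ∧ Reach n (sched n k nb) o o' := by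
  let x : ℕ → Bool := fun v => decide (v ∈ K)
  refine ⟨st n x (posS ∅), st n x (posS (Finset.range n \ K)), good_st (posS_lt' _), ?_⟩
  have h6 : ∀ v < n, Ok n x (posS ∅) (9 * v + 6) := fun v hv =>
    ok_lab hv (by omega) (by omega) (fun _ => by simp [posS]) (by omega) (by omega)
  refine reach_append.2 ⟨_, reach_ok (posS_lt' _) fun e he => ?_, reach_append.2
    ⟨_, reach_flatMap fun u hu => reach_flatMap fun v hv => ?_, reach_append.2
    ⟨_, reach_ok (posS_lt' _) fun e he => ?_, reach_append.2 ⟨_, reach_move x _ ?_,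
      reach_ok (posS_lt' _) fun e he => ?_⟩⟩⟩⟩
  · obtain ⟨v, hv, rfl⟩ := List.mem_map.1 he
    exact ok_lab (List.mem_range.1 hv) (by omega) (by omega) (by omega) (by omega) (by omega)
  · rw [List.mem_range] at hu hv
    cases hc : nb u v
    · rfl
    have hcard : 2 * ({u, v} ∩ K).card ≤ 2 := by
      have : ({u, v} ∩ K).card ≤ 1 := Finset.card_le_one.2 fun a ha b hb => by
        simp only [Finset.mem_inter, Finset.mem_insert, Finset.mem_singleton] at ha hb
        by_contra hab
        have : u ∈ K ∧ v ∈ K := by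
          rcases ha with ⟨rfl | rfl, ha⟩ <;> rcases hb with ⟨rfl | rfl, hb⟩ <;> simp_all
        rw [hnb u this.1 v this.2] at hc
        cases hc
      omega
    have hm := reach_move (n := n) x _ hcard
    have h8 : ∀ w < n, w = u ∨ w = v → Ok n x (posS ({u, v} ∩ K)) (9 * w + 8) := fun w hw huv =>
      ok_lab hw (by omega) (by omega) (by omega) (by omega) fun _ => by
        by_cases h : w ∈ K <;> simp [posS, x, h, huv]
    refine reach_append.2 ⟨_, reach_ok (posS_lt' _) ?_, reach_append.2 ⟨_, hm, reach_append.2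
      ⟨_, reach_ok (posS_lt' _) ?_, hm.reverse⟩⟩⟩
    · simp [h6 u hu, h6 v hv]
    · simp [h8 u hu, h8 v hv]
  · obtain ⟨v, hv, rfl⟩ := List.mem_map.1 he
    exact h6 v (List.mem_range.1 hv)
  · rw [Finset.card_sdiff_of_subset fun v hv => Finset.mem_range.2 (hK v hv), Finset.card_range]
    omega
  · obtain ⟨v, hv, rfl⟩ := List.mem_map.1 he
    rw [List.mem_range] at hv
    exact ok_lab hv (by omega) (by omega) (by omega) (fun _ => by
      by_cases h : v ∈ K <;> simp [posS, x, h, hv]) (by omega)

end Pool.Agent.P.MP_bd026d_co
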