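import Mathlib
import Pool.Agent.P.MP_bd026d_co.Build

/-!
From the placement game to simultaneous graphicness.
-/

namespace Pool.Agent.P.MP_bd026d_co

open Finsupp

variable {n : ℕ}

/-- the ground set at time `i` -/
def Eset (n : ℕ) (l : List ℕ) (i : ℕ) : Set ℕ :=
  if i % 2 = 1 then insert (l.getD (i / 2) 0) (F n) else F n

theorem Eset_even (l : List ℕ) (t : ℕ) : Eset n l (2 * t) = F n := by
  unfold Eset
  rw [if_neg (by omega)]

theorem Eset_odd (l : List ℕ) (t : ℕ) : Eset n l (2 * t + 1) = insert (l.getD t 0) (F n) := by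
  unfold Eset
  rw [if_pos (by omega), show (2 * t + 1) / 2 = t by omega]

/-- the matroids of the schedule -/
def Mat (n : ℕ) (l : List ℕ) (M : ℕ → Matroid ℕ) : Prop :=
  ∀ i < 2 * l.length + 1, (M i).E = Eset n l i ∧
    ∀ I, (M i).Indep I ↔ I ⊆ Eset n l i ∧ LinearIndepOn (ZMod 2) a I

theorem cycle_iff {G : Graph ℕ ℕ} {M : Matroid ℕ} {E : Set ℕ} (hE : Closed E) (h1 : M.E = E)
    (h2 : ∀ I, M.Indep I ↔ I ⊆ E ∧ LinearIndepOn (ZMod 2) a I) {o : Pl} (ho : Valid G o)
    (hG : G.edgeSet = E) : IsCycleMatroid G M ↔ Good E o := by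
  rw [good_iff hE, IsCycleMatroid, h1, hG]
  simp only [true_and]
  refine forall₂_congr fun I hI => ?_
  rw [acyclic_iff ho (hG ▸ hI), h2, and_iff_right hI]
  exact Iff.comm

theorem minor_of_subset {M N : Matroid ℕ} {E E' : Set ℕ} (hE : E ⊆ E') (h1 : M.E = E)
    (h2 : ∀ I, M.Indep I ↔ I ⊆ E ∧ LinearIndepOn (ZMod 2) a I) (h3 : N.E = E')
    (h4 : ∀ I, N.Indep I ↔ I ⊆ E' ∧ LinearIndepOn (ZMod 2) a I) : M.IsMinor N := by
  refine ⟨∅, E' \ E, ?_⟩
  rw [Matroid.contract_empty, Matroid.delete_eq_restrict, h3, Set.sdiff_sdiff_cancel_left hE]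
  refine Matroid.ext_indep h1 fun I _ => ?_
  rw [h2, Matroid.restrict_indep_iff, h4]
  exact ⟨fun h => ⟨⟨h.1.trans hE, h.2⟩, h.1⟩, fun h => ⟨h.2, h.1.2⟩⟩

theorem getD_allowed {l : List ℕ} (hl : ∀ e ∈ l, Allowed n e) {t : ℕ} (ht : t < l.length) :
    Allowed n (l.getD t 0) := by
  rw [List.getD_eq_getElem _ _ ht]
  exact hl _ (List.getElem_mem ht)

theorem Mat.up {l : List ℕ} {M : ℕ → Matroid ℕ} (h : Mat n l M) {t : ℕ} (ht : t < l.length) :
    (M (2 * t)).IsMinor (M (2 * t + 1)) := by
  obtain ⟨h1, h2⟩ := h (2 * t) (by omega)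
  obtain ⟨h3, h4⟩ := h (2 * t + 1) (by omega)
  refine minor_of_subset ?_ h1 h2 h3 h4
  rw [Eset_even, Eset_odd]
  exact Set.subset_insert _ _

theorem Mat.down {l : List ℕ} {M : ℕ → Matroid ℕ} (h : Mat n l M) {t : ℕ} (ht : t < l.length) :
    (M (2 * t + 1 + 1)).IsMinor (M (2 * t + 1)) := by
  obtain ⟨h1, h2⟩ := h (2 * (t + 1)) (by omega)
  obtain ⟨h3, h4⟩ := h (2 * t + 1) (by omega)
  refine minor_of_subset ?_ h1 h2 h3 h4
  rw [Eset_even, Eset_odd]
  exact Set.subset_insert _ _

theorem Mat.temporal {l : List ℕ} {M : ℕ → Matroid ℕ} (h : Mat n l M) :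
    Temporal (2 * l.length + 1) M := by
  intro i hi
  obtain ⟨t, rfl | rfl⟩ := Nat.even_or_odd' i
  · exact Or.inl (h.up (by omega))
  · exact Or.inr (h.down (by omega))

theorem Mat.sim_iff {l : List ℕ} (hl : ∀ e ∈ l, Allowed n e) {M : ℕ → Matroid ℕ}
    (h : Mat n l M) :
    SimGraphic (2 * l.length + 1) M ↔ ∃ o o', Good (F n) o ∧ Reach n l o o' := by
  have hev : ∀ t ≤ l.length, (M (2 * t)).E = F n ∧
      ∀ I, (M (2 * t)).Indep I ↔ I ⊆ F n ∧ LinearIndepOn (ZMod 2) a I := fun t ht => by
    simpa only [Eset_even] using h (2 * t) (by omega)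
  have hod : ∀ t < l.length, (M (2 * t + 1)).E = insert (l.getD t 0) (F n) ∧
      ∀ I, (M (2 * t + 1)).Indep I ↔
        I ⊆ insert (l.getD t 0) (F n) ∧ LinearIndepOn (ZMod 2) a I := fun t ht => by
    simpa only [Eset_odd] using h (2 * t + 1) (by omega)
  constructor
  · rintro ⟨G, hG, hm⟩
    have e1 : ∀ t ≤ l.length, (G (2 * t)).edgeSet = F n := fun t ht =>
      (hG (2 * t) (by omega)).2.1.symm.trans (hev t ht).1
    have e2 : ∀ t < l.length, (G (2 * t + 1)).edgeSet = insert (l.getD t 0) (F n) := fun t ht =>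
      (hG (2 * t + 1) (by omega)).2.1.symm.trans (hod t ht).1
    have g1 : ∀ t ≤ l.length, ∀ o, Valid (G (2 * t)) o → Good (F n) o := fun t ht o ho =>
      (cycle_iff (closed_F n) (hev t ht).1 (hev t ht).2 ho (e1 t ht)).1 (hG _ (by omega)).2
    obtain ⟨o, ho⟩ := exists_valid (G (2 * 0))
    have key : ∀ t ≤ l.length, ∃ o', Valid (G (2 * t)) o' ∧ Reach n (l.take t) o o' := by
      intro t
      induction t with
      | zero => exact fun _ => ⟨o, ho, rfl⟩
      | succ t ih =>
        intro ht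
        obtain ⟨o₁, v₁, r₁⟩ := ih (by omega)
        obtain ⟨o₂, v₂, r₂⟩ := minor_up ((hm (2 * t) (by omega)).1 (h.up ht)) (e1 t (by omega))
          (e2 t ht) v₁
        obtain ⟨o₃, v₃, r₃⟩ := minor_down ((hm (2 * t + 1) (by omega)).2 (h.down ht))
          (e1 (t + 1) ht) (e2 t ht) v₂
        refine ⟨o₃, v₃, ?_⟩
        rw [List.take_add_one, List.getElem?_eq_getElem ht, reach_append,
          ← List.getD_eq_getElem l 0 ht]
        have hA := getD_allowed hl ht
        exact ⟨o₁, r₁, o₃, ⟨hA, g1 t (by omega) _ v₁, g1 (t + 1) ht _ v₃, o₂,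
          (cycle_iff (closed_insert n hA) (hod t ht).1 (hod t ht).2 v₂ (e2 t ht)).1
            (hG _ (by omega)).2, r₂, r₃⟩, rfl⟩
    obtain ⟨o', -, r⟩ := key _ le_rfl
    rw [List.take_length] at r
    exact ⟨o, o', g1 0 (by omega) o ho, r⟩
  · rintro ⟨o, o', ho, r⟩
    obtain ⟨s, rfl, -, hs⟩ := reach_iff.1 r
    have hgood : ∀ t ≤ l.length, Good (F n) (s t) := by
      intro t ht
      cases t with
      | zero => exact ho
      | succ t => exact (hs t ht).2.2.1
    choose! m hm1 hm2 hm3 using fun t ht => (hs t ht).2.2.2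
    let G : ℕ → Graph ℕ ℕ := fun i =>
      graphOf (Eset n l i) (if i % 2 = 1 then m (i / 2) else s (i / 2))
    have G1 : ∀ t, G (2 * t) = graphOf (F n) (s t) := fun t => by
      simp only [G, Eset_even]
      rw [if_neg (by omega), show 2 * t / 2 = t by omega]
    have G2 : ∀ t, G (2 * t + 1) = graphOf (insert (l.getD t 0) (F n)) (m t) := fun t => by
      simp only [G, Eset_odd]
      rw [if_pos (by omega), show (2 * t + 1) / 2 = t by omega]
    have hno : ∀ t < l.length, ∀ t' ≤ l.length, ¬ (M (2 * t + 1)).IsMinor (M (2 * t')) := by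
      intro t ht t' ht' hc
      have := hc.subset
      rw [(hod t ht).1, (hev t' ht').1] at this
      exact (getD_allowed hl ht).not_mem (this (Set.mem_insert _ _))
    refine ⟨G, fun i hi => ?_, fun i hi => ?_⟩
    · obtain ⟨t, rfl | rfl⟩ := Nat.even_or_odd' i
      · rw [G1]
        exact ⟨finite_graphOf finite_F _, (cycle_iff (closed_F n) (hev t (by omega)).1
          (hev t (by omega)).2 (valid_graphOf _ _) rfl).2 (hgood t (by omega))⟩
      · rw [G2]
        exact ⟨finite_graphOf (finite_F.insert _) _, (cycle_iff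
          (closed_insert n (getD_allowed hl (by omega))) (hod t (by omega)).1
          (hod t (by omega)).2 (valid_graphOf _ _) rfl).2 (hm1 t (by omega))⟩
    · obtain ⟨t, rfl | rfl⟩ := Nat.even_or_odd' i
      · have ht : t < l.length := by omega
        refine ⟨fun _ => ?_, fun hc => absurd hc (hno t ht t ht.le)⟩
        rw [G1, G2]
        exact minor_of_rel (getD_allowed hl ht).not_mem (hm2 t ht)
      · have ht : t < l.length := by omega
        refine ⟨fun hc => absurd hc (hno t ht (t + 1) ht), fun _ => ?_⟩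
        rw [show 2 * t + 1 + 1 = 2 * (t + 1) by omega, G1, G2]
        exact minor_of_rel (getD_allowed hl ht).not_mem (hm3 t ht)

theorem sched_allowed {k : ℕ} {nb : ℕ → ℕ → Bool} : ∀ e ∈ sched n k nb, Allowed n e := by
  intro e he
  have hT : ∀ v < n, ∀ j, 5 ≤ j → j < 9 → Allowed n (9 * v + j) := fun v hv j h5 h9 =>
    Or.inr ⟨by omega, by omega⟩
  simp only [sched, List.mem_append, List.mem_map, List.mem_range, List.mem_flatMap,
    List.mem_replicate] at he
  rcases he with ⟨v, hv, rfl⟩ | ⟨u, hu, v, hv, he⟩ | ⟨v, hv, rfl⟩ | ⟨-, rfl⟩ | ⟨v, hv, rfl⟩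
  · exact hT v hv 5 (by omega) (by omega)
  · cases hc : nb u v
    · simp [hc] at he
    · simp only [hc, cond_true, round, List.mem_append, List.mem_cons, List.not_mem_nil,
        or_false] at he
      rcases he with (rfl | rfl) | (rfl | rfl) | (rfl | rfl) | rfl | rfl <;>
        first | exact Or.inl rfl | exact hT _ ‹_› _ (by omega) (by omega)
  · exact hT v hv 6 (by omega) (by omega)
  · exact Or.inl rfl
  · exact hT v hv 7 (by omega) (by omega)

open Classical in
theorem sim_iff_clique (Γ : SimpleGraph ℕ) {k : ℕ} (hk2 : 2 ≤ k) (hk : k ≤ n)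
    (hlt : ∀ s t, Γ.Adj s t → s < n) {M : ℕ → Matroid ℕ}
    (h : Mat n (sched n k fun u v => decide (u ≠ v ∧ ¬ Γ.Adj u v)) M) :
    SimGraphic (2 * (sched n k fun u v => decide (u ≠ v ∧ ¬ Γ.Adj u v)).length + 1) M ↔
      ∃ K, Γ.IsNClique k K := by
  rw [h.sim_iff sched_allowed]
  constructor
  · rintro ⟨o, o', ho, r⟩
    obtain ⟨K, -, h2, h3⟩ := sound (fun u v huv => (of_decide_eq_true huv).1) hk ho r
    obtain ⟨K', hK', hc⟩ := Finset.exists_subset_card_eq h2
    refine ⟨K', fun u hu v hv huv => ?_, hc⟩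
    have := h3 u (hK' hu) v (hK' hv)
    simpa [huv] using this
  · rintro ⟨K, hK⟩
    refine complete K (fun v hv => ?_) hK.card_eq.ge fun u hu v hv => ?_
    · obtain ⟨w, hw, hne⟩ := Finset.exists_mem_ne (s := K) (by rw [hK.card_eq]; omega) v
      exact hlt v w (hK.isClique hv hw hne.symm)
    · simp only [decide_eq_false_iff_not, not_and, not_not]
      exact fun huv => hK.isClique hu hv huv

theorem av_shift (v : ℕ) {j : ℕ} (l : ℕ) (hj : j < 9) : av v j (9 * v + l) = av 0 j l := by
  interval_cases j <;> simp [av, single_apply, eq_comm]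

theorem a_apply (e r : ℕ) : a e r = if r / 9 = e / 9 then av 0 (e % 9) (r % 9) else 0 := by
  split_ifs with h
  · rw [← av_shift (e / 9) _ (Nat.mod_lt _ (by omega)), a]
    congr 1
    omega
  · by_contra hc
    exact h (a_ne hc).1

theorem lc_eval (c : Vec) (v : ℕ) {l : ℕ} (hl : l < 9) : linearCombination (ZMod 2) a c (9 * v + l) =
    ∑ j ∈ Finset.range 9, c (9 * v + j) * av 0 j l := by
  induction c using Finsupp.induction_linear with
  | zero => simp
  | add c d hc hd => simp [hc, hd, add_mul, Finset.sum_add_distrib]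
  | single e r =>
    obtain ⟨w, i, hi, rfl⟩ := exists_lab e
    rw [linearCombination_single, Finsupp.smul_apply, a_apply,
      show (9 * v + l) / 9 = v by omega, show (9 * w + i) / 9 = w by omega,
      show (9 * v + l) % 9 = l by omega, show (9 * w + i) % 9 = i by omega]
    split_ifs with h
    · subst h
      rw [Finset.sum_eq_single_of_mem i (Finset.mem_range.2 hi)]
      · simp
      · intro j _ hj
        rw [single_eq_of_ne (by omega), zero_mul]
    · rw [smul_zero]
      refine (Finset.sum_eq_zero fun j hj => ?_).symm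
      have := Finset.mem_range.1 hj
      rw [single_eq_of_ne (by omega), zero_mul]

/-- a block pattern is dependent -/
def Dep (w : List Bool) : Prop :=
  ∃ d : ℕ → ZMod 2, (∃ j < 9, d j ≠ 0) ∧ (∀ j < 9, d j ≠ 0 → w.getD j false = true) ∧
    ∀ l < 9, ∑ j ∈ Finset.range 9, d j * av 0 j l = 0

/-- the pattern of block `v` -/
def blockBits (s : List Bool) (v : ℕ) : List Bool :=
  (List.range 9).map fun j => s.getD (9 * v + j) false

theorem blockBits_getD (s : List Bool) (v : ℕ) {j : ℕ} (hj : j < 9) :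
    (blockBits s v).getD j false = s.getD (9 * v + j) false := by
  simp [blockBits, List.getD_eq_getElem?_getD, hj]

theorem indep_iff (s : List Bool) :
    LinearIndepOn (ZMod 2) a (ones s) ↔ ∀ v < s.length, ¬ Dep (blockBits s v) := by
  rw [linearIndepOn_iff]
  constructor
  · rintro h v - ⟨d, ⟨j₀, hj₀, hd₀⟩, h1, h2⟩
    let c : Vec := onFinset (Finset.range (9 * v + 9))
      (fun e => if e / 9 = v then d (e % 9) else 0) fun e he => by
        rw [Finset.mem_range]
        by_contra hc
        exact he (if_neg (by omega))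
    have hc : ∀ w j, j < 9 → c (9 * w + j) = if w = v then d j else 0 := fun w j hj => by
      simp only [c, onFinset_apply]
      rw [show (9 * w + j) / 9 = w by omega, show (9 * w + j) % 9 = j by omega]
    have := h c (fun e he => by
      obtain ⟨w, j, hj, rfl⟩ := exists_lab e
      have h3 := mem_support_iff.1 he
      rw [hc w j hj] at h3
      split_ifs at h3 with h4
      · subst h4
        exact (blockBits_getD s w hj).symm.trans (h1 j hj h3)
      · exact absurd rfl h3) (by
      ext r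
      obtain ⟨w, l, hl, rfl⟩ := exists_lab r
      rw [lc_eval c w hl, Finset.sum_congr rfl fun j hj => by rw [hc w j (Finset.mem_range.1 hj)]]
      split_ifs
      · exact h2 l hl
      · simp)
    have h5 := hc v j₀ hj₀
    rw [this, if_pos rfl] at h5
    exact hd₀ h5.symm
  · intro h c hc h0
    by_contra hne
    obtain ⟨e, he⟩ := Finsupp.support_nonempty_iff.2 hne
    obtain ⟨v, j, hj, rfl⟩ := exists_lab e
    have h1 : s.getD (9 * v + j) false = true := hc he
    have h2 : 9 * v + j < s.length := by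
      by_contra hh
      rw [List.getD_eq_default _ _ (by omega)] at h1
      cases h1
    refine h v (by omega) ⟨fun i => c (9 * v + i), ⟨j, hj, mem_support_iff.1 he⟩,
      fun i hi hci => ?_, fun l hl => ?_⟩
    · exact (blockBits_getD s v hi).trans (hc (mem_support_iff.2 hci))
    · rw [← lc_eval c v hl, h0]
      rfl

end Pool.Agent.P.MP_bd026d_co
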