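import Mathlib
import Pool.Agent.P.MP_bd026d_co.Bridge
import Pool.Agent.P.MP_ba7db8_lc.Main
import Pool.Agent.Lib.Helper33.Sim

/-!
The reduction and its running time.
-/

namespace Pool.Agent.P.MP_bd026d_co

open Pool.Agent.P.MP_ba7db8_lc Pool.Agent.Lib.Helper47 Pool.Agent.Lib.Helper33 Turing

open Classical in
/-- bit masks of the ground sets -/
noncomputable def masks (n : ℕ) (l : List ℕ) : List (List Bool) :=
  (List.range (2 * l.length + 1)).map fun i =>
    (List.range (9 * n + 1)).map fun e => decide (e ∈ Eset n l i)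

open Classical in
/-- the matrix -/
noncomputable def mat (n : ℕ) : List (List Bool) :=
  (List.range (9 * n + 1)).map fun e => (List.range (9 * n + 9)).map fun r => decide (a e r = 1)

theorem Eset_le {n : ℕ} {l : List ℕ} (hl : ∀ e ∈ l, Allowed n e) {i : ℕ}
    (hi : i < 2 * l.length + 1) {e : ℕ} (he : e ∈ Eset n l i) : e < 9 * n + 1 := by
  obtain ⟨t, rfl | rfl⟩ := Nat.even_or_odd' i
  · rw [Eset_even] at he
    have := he.1
    omega
  · rw [Eset_odd] at he
    rcases he with rfl | he
    · rcases getD_allowed hl (t := t) (by omega) with h | h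
      · omega
      · have := h.1
        omega
    · have := he.1
      omega

theorem ones_masks {n : ℕ} {l : List ℕ} (hl : ∀ e ∈ l, Allowed n e) {i : ℕ}
    (hi : i < 2 * l.length + 1) : ones ((masks n l).getD i []) = Eset n l i := by
  ext e
  by_cases he : e < 9 * n + 1
  · simp [ones, masks, List.getD_eq_getElem?_getD, hi, he]
  · simp only [ones, masks, List.getD_eq_getElem?_getD, Set.mem_ofPred_eq]
    refine iff_of_false ?_ fun h => he (Eset_le hl hi h)
    simp [hi, he]

theorem col_mat {n e : ℕ} (he : e < 9 * n + 1) : col (mat n) e = a e := by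
  funext r
  by_cases hr : r < 9 * n + 9
  · rcases z2 (a e r) with h | h <;> simp [col, mat, List.getD_eq_getElem?_getD, he, hr, h]
  · have : a e r = 0 := by
      by_contra h
      have := a_ne h
      omega
    simp [col, mat, List.getD_eq_getElem?_getD, he, hr, this]

theorem indep_col {n : ℕ} {I : Set ℕ} (hI : ∀ e ∈ I, e < 9 * n + 1) :
    LinearIndepOn (ZMod 2) (col (mat n)) I ↔ LinearIndepOn (ZMod 2) a I := by
  rw [linearIndepOn_congr (w := (Finsupp.lcoeFun (R := ZMod 2)) ∘ a) fun e he => col_mat (hI e he)]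
  exact LinearMap.linearIndependent_iff_of_injOn (v := fun x : I => a x) Finsupp.lcoeFun
    (Function.Injective.injOn fun x y h => DFunLike.coe_injective h)

theorem exists_mat {n : ℕ} {l : List ℕ} (hl : ∀ e ∈ l, Allowed n e) :
    ∃ M, Mat n l M ∧ Represents (masks n l) (mat n) M ∧
      ∀ i, i + 1 < 2 * l.length + 1 → (symmDiff (M i).E (M (i + 1)).E).ncard = 1 := by
  have hf : ∀ i, (Eset n l i).Finite := fun i => by
    unfold Eset
    split_ifs
    exacts [finite_F.insert _, finite_F]
  choose M h1 h2 using fun i => exists_matroid a (hf i)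
  refine ⟨M, fun i _ => ⟨h1 i, h2 i⟩, fun i hi => ?_, fun i hi => ?_⟩
  · have hi' : i < 2 * l.length + 1 := by simpa [masks] using hi
    rw [ones_masks hl hi']
    refine ⟨h1 i, fun I => (h2 i I).trans (and_congr_right fun hI => ?_)⟩
    exact (indep_col fun e he => Eset_le hl hi' (hI he)).symm
  · have key : ∀ t < l.length, (symmDiff (F n) (insert (l.getD t 0) (F n))).ncard = 1 := by
      intro t ht
      rw [symmDiff_of_le (Set.subset_insert _ _), Set.insert_sdiff_of_notMem _
        (getD_allowed hl ht).not_mem]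
      simp
    rw [h1, h1]
    obtain ⟨t, rfl | rfl⟩ := Nat.even_or_odd' i
    · rw [Eset_even, Eset_odd]
      exact key t (by omega)
    · rw [show 2 * t + 1 + 1 = 2 * (t + 1) by omega, Eset_even, Eset_odd, symmDiff_comm]
      exact key t (by omega)

section PT

variable {α : Type} [Enc α]

theorem ptp_Eset {n i e : α → ℕ} {l : α → List ℕ} (hn : PT n) (hl : PT l) (hi : PT i)
    (he : PT e) : PTP fun x => e x ∈ Eset (n x) (l x) (i x) := by
  have hF : PTP fun x => e x ∈ F (n x) :=
    (PTP.lt he (by fun_prop)).and (PTP.lt (f := fun x => e x % 9) (by fun_prop) (PT.const 5))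
  refine ((((PTP.eq (f := fun x => i x % 2) (by fun_prop) (PT.const 1)).and
    (PTP.eq he (g := fun x => (l x).getD (i x / 2) 0) (by fun_prop))).or hF)).of_iff fun x => ?_
  unfold Eset
  split_ifs with h <;> simp [h]

theorem pt_masks {n : α → ℕ} {l : α → List ℕ} (hn : PT n) (hb : PS n) (hl : PT l) :
    PT fun x => masks (n x) (l x) := by
  classical
  refine PT.map (g := fun x i => (List.range (9 * n x + 1)).map fun e =>
    decide (e ∈ Eset (n x) (l x) i)) ?_ (PT.range (by fun_prop)
      (((PB.const 2).mul (ps_length hl)).add (PB.const 1)))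
  refine PT.map (g := fun (y : α × ℕ) e => decide (e ∈ Eset (n y.1) (l y.1) y.2)) ?_
    (PT.range (by fun_prop) (((PB.const 9).mul (ps_fst hb)).add (PB.const 1)))
  exact (ptp_Eset (by fun_prop) (by fun_prop) (by fun_prop) (by fun_prop)).dec

theorem ptp_a {e r : α → ℕ} (he : PT e) (hr : PT r) : PTP fun x => a (e x) (r x) = 1 := by
  refine ((PTP.eq (f := fun x => r x / 9) (g := fun x => e x / 9) (by fun_prop) (by fun_prop)).and
    (PTP.table (fun j l _ _ => av 0 j l = 1) 9 (f₁ := fun x => e x % 9) (f₂ := fun x => r x % 9)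
      (f₃ := fun _ => 0) (f₄ := fun _ => 0) (by fun_prop) (by fun_prop) (by fun_prop)
      (by fun_prop) fun x => by omega)).of_iff fun x => ?_
  rw [a_apply]
  split_ifs with h <;> simp [h]

theorem pt_mat {n : α → ℕ} (hn : PT n) (hb : PS n) : PT fun x => mat (n x) := by
  classical
  refine PT.map (g := fun x e => (List.range (9 * n x + 9)).map fun r => decide (a e r = 1)) ?_
    (PT.range (by fun_prop) (((PB.const 9).mul hb).add (PB.const 1)))
  refine PT.map (g := fun (y : α × ℕ) r => decide (a y.2 r = 1)) ?_
    (PT.range (by fun_prop) (((PB.const 9).mul (ps_fst hb)).add (PB.const 9)))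
  exact (ptp_a (by fun_prop) (by fun_prop)).dec

theorem pt_code {E A : α → List (List Bool)} (hE : PT E) (hA : PT A) :
    PT fun x => code (E x) (A x) := by
  unfold code pair
  fun_prop

theorem pt_sched {n k : α → ℕ} {nb : α → ℕ → ℕ → Bool} (hn : PT n) (hb : PS n) (hk : PT k)
    (hnb : PT fun y : (α × ℕ) × ℕ => nb y.1.1 y.1.2 y.2) :
    PT fun x => sched (n x) (k x) (nb x) := by
  have hr := PT.range hn hb
  have hr' : PT fun y : α × ℕ => List.range (n y.1) := hr.comp (PT.fst PT.id)
  have hrep : PT fun x => List.replicate (2 * (n x - k x)) (9 * n x) :=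
    PT.replicate (by fun_prop) (((PB.const 2).mul hb).mono fun x => by omega) (by fun_prop)
  unfold sched
  refine PT.append (by fun_prop) (PT.append ?_ (by fun_prop))
  refine PT.flatMap (g := fun x u => (List.range (n x)).flatMap fun v =>
    bif nb x u v then round (n x) u v else []) ?_ hr
  refine PT.flatMap (g := fun (y : α × ℕ) v =>
    bif nb y.1 y.2 v then round (n y.1) y.2 v else []) ?_ hr'
  unfold round
  exact PT.cond hnb (by fun_prop) (by fun_prop)

theorem ptp_dep {s : α → List Bool} {v : α → ℕ} (hs : PT s) (hv : PT v) :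
    PTP fun x => Dep (blockBits (s x) (v x)) := by
  classical
  have h : PT fun w : List Bool => decide (w.length = 9 ∧ Dep w) :=
    PT.of_table _ (List.finite_length_eq Bool 9).toFinset.toList false fun w hw => by
      simp only [Finset.mem_toList, Set.Finite.mem_toFinset, Set.mem_ofPred_eq] at hw
      simp [hw]
  have hb : PT fun x => blockBits (s x) (v x) := by
    unfold blockBits
    fun_prop
  exact ((PTP.of_dec h).comp hb).of_iff fun x => by simp [blockBits]

theorem ptp_indep {n i : α → ℕ} {l : α → List ℕ} {s : α → List Bool} (hn : PT n) (hl : PT l)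
    (hi : PT i) (hs : PT s) : PTP fun x => ones (s x) ⊆ Eset (n x) (l x) (i x) ∧
      LinearIndepOn (ZMod 2) a (ones (s x)) := by
  refine PTP.and ?_ ?_
  · refine (PTP.ball (q := fun x e => (s x).getD e false = true → e ∈ Eset (n x) (l x) (i x))
      (PT.length hs) (ps_length hs) (PTP.imp (PTP.eq (by fun_prop) (PT.const true))
        (ptp_Eset (by fun_prop) (by fun_prop) (by fun_prop) (by fun_prop)))).of_iff fun x => ?_
    refine ⟨fun h e he => h e ?_ he, fun h e _ he => h he⟩
    by_contra hh
    have : (s x).getD e false = true := he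
    rw [List.getD_eq_default _ _ (by omega)] at this
    cases this
  · exact (PTP.ball (q := fun x v => ¬ Dep (blockBits (s x) v)) (PT.length hs) (ps_length hs)
      (ptp_dep (by fun_prop) (by fun_prop)).not).of_iff fun x => (indep_iff _).symm

end PT

theorem reduction (L : Set (List Bool)) (hL : InNP L) :
    ∃ (n : List Bool → ℕ) (l : List Bool → List ℕ) (M : List Bool → ℕ → Matroid ℕ),
      PT n ∧ PS n ∧ PT l ∧ ∀ x, Mat (n x) (l x) (M x) ∧
        Represents (masks (n x) (l x)) (mat (n x)) (M x) ∧
        (∀ i, i + 1 < 2 * (l x).length + 1 → (symmDiff (M x i).E (M x (i + 1)).E).ncard = 1) ∧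
        (x ∈ L ↔ SimGraphic (2 * (l x).length + 1) (M x)) := by
  classical
  obtain ⟨V, P, ⟨h⟩, hV⟩ := hL
  obtain ⟨q, hqg, -, -, hd, hq⟩ := exists_par h P 2 2 le_rfl fun _ _ _ _ => True
  let l : List Bool → List ℕ := fun x =>
    sched (q.nv x) (q.k x) fun u v => decide (u ≠ v ∧ ¬ (q.Gam x).Adj u v)
  choose M h1 h2 h3 using fun x => exists_mat (l := l x) sched_allowed
  refine ⟨q.nv, l, M, q.pt_nv PT.id, q.ps_nv PT.id, ?_, fun x => ⟨h1 x, h2 x, h3 x, ?_⟩⟩
  · refine pt_sched (q.pt_nv PT.id) (q.ps_nv PT.id) (q.pt_k PT.id) ?_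
    exact (PTP.and (PTP.eq (by fun_prop) (by fun_prop)).not
      (q.ptp_Gam hd (by fun_prop) (by fun_prop) (by fun_prop)).not).dec
  · rw [hV, ← hq]
    refine (sim_iff_clique (q.Gam x) ?_ ?_ (fun s t hst => cspGraph_lt hd hst) (h1 x)).symm
    · have : (q.T x + 1) * q.J x + 5 < 2 ^ q.m x := Nat.lt_size_self _
      unfold Par.k
      rw [hqg]
      omega
    · exact Nat.le_mul_of_pos_right _ (pow_pos hd _)

theorem length_masks (n : ℕ) (l : List ℕ) : (masks n l).length = 2 * l.length + 1 := by
  simp [masks]

theorem np_hard (L : Set (List Bool)) (hL : InNP L) :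
    ∃ f : List Bool → List Bool, Nonempty (TM2ComputableInPolyTime id id f) ∧
      ∀ x, ∃ (E A : List (List Bool)) (M : ℕ → Matroid ℕ), f x = code E A ∧ Represents E A M ∧
        Temporal E.length M ∧
        (∀ i, i + 1 < E.length → (symmDiff (M i).E (M (i + 1)).E).ncard = 1) ∧
        (x ∈ L ↔ SimGraphic E.length M) := by
  obtain ⟨n, l, M, hn, hb, hl, h⟩ := reduction L hL
  refine ⟨_, PT.computableInPolyTime id id _ (pt_code (pt_masks hn hb hl) (pt_mat hn hb))
    fun _ => rfl, fun x => ⟨_, _, M x, rfl, (h x).2.1, ?_⟩⟩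
  rw [length_masks]
  exact ⟨(h x).1.temporal, (h x).2.2⟩

theorem oracle_hard (Q : List Bool → List Bool) (D : List Bool → Bool) (p : Polynomial ℕ)
    (hQ : Nonempty (TM2ComputableInPolyTime id id Q))
    (hD : Nonempty (TM2ComputableInPolyTime id Computability.encodeBool D))
    (hdec : ∀ (E A : List (List Bool)) (M : ℕ → Matroid ℕ), Represents E A M →
      Temporal E.length M →
      (∀ i, i + 1 < E.length → (symmDiff (M i).E (M (i + 1)).E).ncard = 1) →
      (D (pair (code E A) (answers Q (oracle E.length M) (code E A) (p.eval (code E A).length))) =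
        true ↔ SimGraphic E.length M))
    (L : Set (List Bool)) (hL : InNP L) :
    ∃ d : List Bool → Bool, Nonempty (TM2ComputableInPolyTime id Computability.encodeBool d) ∧
      ∀ x, x ∈ L ↔ d x = true := by
  classical
  obtain ⟨n, l, M, hn, hb, hl, h⟩ := reduction L hL
  have hQ' := Sim.pt_of_tm hQ.some
  have hD' := Sim.pt_of_tm_bool hD.some
  let y : List Bool → List Bool := fun x => code (masks (n x) (l x)) (mat (n x))
  have hy : PT y := pt_code (pt_masks hn hb hl) (pt_mat hn hb)
  have hO : PT fun z : List Bool × List Bool => oracle (2 * (l z.1).length + 1) (M z.1) z.2 := by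
    refine ((PTP.lt (f := fun z : List Bool × List Bool => z.2.idxOf false)
      (g := fun z => 2 * (l z.1).length + 1) (by fun_prop) (by fun_prop)).and
      (ptp_indep (n := fun z => n z.1) (l := fun z => l z.1) (i := fun z => z.2.idxOf false)
        (s := fun z => z.2.drop (z.2.idxOf false + 1)) (by fun_prop) (by fun_prop) (by fun_prop)
        (by fun_prop))).dec.of_eq fun z => ?_
    unfold oracle
    rw [decide_eq_decide]
    exact and_congr_right fun hi => (((h z.1).1 _ hi).2 _).symm
  have hT : PT fun x => p.eval (y x).length := pt_eval _ (PT.length hy)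
  have hT' : PS fun x => p.eval (y x).length := (ps_length hy).eval _
  have hstep : PT fun z : List Bool × List Bool =>
      z.2 ++ [oracle (2 * (l z.1).length + 1) (M z.1) (Q (pair (y z.1) z.2))] :=
    PT.append (by fun_prop) (PT.cons (hO.comp (g := fun z : List Bool × List Bool =>
      (z.1, Q (pair (y z.1) z.2))) (PT.prodMk (by fun_prop)
        (hQ'.comp (Par.pt_pair (by fun_prop) (by fun_prop))))) (PT.const []))
  have hit := PT.iterate (f := fun x h =>
    h ++ [oracle (2 * (l x).length + 1) (M x) (Q (pair (y x) h))]) hstep (PT.range hT hT')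
    (PT.const []) (fun x => 4 * p.eval (y x).length + 1) (((PB.const 4).mul hT').add (PB.const 1))
    fun x i hi => by
      rw [List.length_range] at hi
      refine (size_bits_le _).trans ?_
      have : ∀ j, ((fun h => h ++ [oracle (2 * (l x).length + 1) (M x) (Q (pair (y x) h))])^[j]
          []).length = j := by
        intro j
        induction j with
        | zero => rfl
        | succ j ih => rw [Function.iterate_succ_apply', List.length_append, ih]; rfl
      rw [this]
      omega
  have hd := hD'.comp (Par.pt_pair hy hit)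
  refine ⟨_, PT.computableInPolyTime id Computability.encodeBool _ (PT.cons hd (PT.const []))
    fun _ => rfl, fun x => ?_⟩
  have := hdec _ _ _ (h x).2.1 (length_masks _ _ ▸ (h x).1.temporal)
    (length_masks _ _ ▸ (h x).2.2.1)
  rw [length_masks] at this
  rw [(h x).2.2.2, ← this, List.length_range]
  rfl

end Pool.Agent.P.MP_bd026d_co
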